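import Pool.Agent.Zk60.BW.Ind
import Pool.Agent.N661.BR.Defs

/-!
# The average over the directions
-/

set_option autoImplicit false

open Filter Topology Real MeasureTheory Set

namespace Pool.Agent.Zk60.BW

open Pool.Agent.N661.BR (J0)

theorem J0_eq (w : ℂ) : J0 ‖w‖ =
    1 / (2 * π) * ∫ α in (0 : ℝ)..(2 * π), cos (w.re * cos α + w.im * sin α) := by
  set r : ℝ := ‖w‖ with hr
  set t : ℝ := w.arg with ht
  have hw : ∀ x : ℝ, w.re * Real.cos x + w.im * Real.sin x = r * Real.cos (x - t) := by
    intro x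
    have h1 : w.re = r * Real.cos t := (Complex.norm_mul_cos_arg w).symm
    have h2 : w.im = r * Real.sin t := (Complex.norm_mul_sin_arg w).symm
    rw [h1, h2, Real.cos_sub]
    ring
  have hper : Function.Periodic (fun x : ℝ => Real.cos (r * Real.cos x)) (2 * π) := by
    intro x
    show Real.cos (r * Real.cos (x + 2 * π)) = Real.cos (r * Real.cos x)
    rw [Real.cos_add_two_pi]
  unfold J0
  simp only [hw]
  rw [intervalIntegral.integral_comp_sub_right (fun x => Real.cos (r * Real.cos x)) t]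
  have h1 := hper.intervalIntegral_add_eq (0 - t) 0
  rw [zero_add] at h1
  have h2 : (0 : ℝ) - t + 2 * π = 2 * π - t := by ring
  rw [h2] at h1
  rw [h1]

/-- the function which is averaged -/
noncomputable def GG (w : ℂ) (x y : ℝ) : ℝ := cos (x * w.re) * cos (y * w.im)

theorem abs_cos_sub_le (x y : ℝ) : |cos x - cos y| ≤ |x - y| := by
  have := Real.abs_cos_sub_cos_le x y
  exact this

theorem GG_sub (w : ℂ) (x y x' y' : ℝ) :
    |GG w x y - GG w x' y'| ≤ |w.re| * |x - x'| + |w.im| * |y - y'| := by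
  unfold GG
  have e : cos (x * w.re) * cos (y * w.im) - cos (x' * w.re) * cos (y' * w.im) =
      (cos (x * w.re) - cos (x' * w.re)) * cos (y * w.im) +
        cos (x' * w.re) * (cos (y * w.im) - cos (y' * w.im)) := by ring
  rw [e]
  refine (abs_add_le _ _).trans (add_le_add ?_ ?_)
  · rw [abs_mul]
    have h1 := abs_cos_sub_le (x * w.re) (x' * w.re)
    have h2 : |x * w.re - x' * w.re| = |w.re| * |x - x'| := by
      rw [← sub_mul, abs_mul, mul_comm]
    rw [h2] at h1
    calc _ ≤ |cos (x * w.re) - cos (x' * w.re)| * 1 :=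
          mul_le_mul_of_nonneg_left (abs_cos_le_one _) (abs_nonneg _)
      _ ≤ _ := by rw [mul_one]; exact h1
  · rw [abs_mul]
    have h1 := abs_cos_sub_le (y * w.im) (y' * w.im)
    have h2 : |y * w.im - y' * w.im| = |w.im| * |y - y'| := by
      rw [← sub_mul, abs_mul, mul_comm]
    rw [h2] at h1
    calc _ ≤ 1 * |cos (y * w.im) - cos (y' * w.im)| :=
          mul_le_mul_of_nonneg_right (abs_cos_le_one _) (abs_nonneg _)
      _ ≤ _ := by rw [one_mul]; exact h1

theorem half (w : ℂ) : J0 ‖w‖ = 1 / π * ∫ α in (0 : ℝ)..π, GG w (cos α) (sin α) := by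
  rw [J0_eq]
  have hc1 : Continuous fun α : ℝ => cos (w.re * cos α + w.im * sin α) := by fun_prop
  have hc2 : Continuous fun α : ℝ => cos (w.re * cos α - w.im * sin α) := by fun_prop
  rw [← intervalIntegral.integral_add_adjacent_intervals (b := π) (hc1.intervalIntegrable _ _)
    (hc1.intervalIntegrable _ _)]
  have h1 : ∫ α in π..(2 * π), cos (w.re * cos α + w.im * sin α) =
      ∫ α in (0 : ℝ)..π, cos (w.re * cos α - w.im * sin α) := by
    have h := intervalIntegral.integral_comp_sub_left (a := 0) (b := π)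
      (fun α => cos (w.re * cos α + w.im * sin α)) (2 * π)
    rw [sub_zero] at h
    have e : 2 * π - π = π := by ring
    rw [e] at h
    rw [← h]
    refine intervalIntegral.integral_congr fun α _ => ?_
    rw [cos_two_pi_sub, sin_two_pi_sub]
    congr 1
    ring
  rw [h1, ← intervalIntegral.integral_add (hc1.intervalIntegrable _ _) (hc2.intervalIntegrable _ _)]
  have h2 : ∀ α : ℝ, cos (w.re * cos α + w.im * sin α) + cos (w.re * cos α - w.im * sin α) =
      2 * GG w (cos α) (sin α) := by
    intro α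
    unfold GG
    rw [cos_add, cos_sub, mul_comm (cos α), mul_comm (sin α)]
    ring
  simp only [h2]
  rw [intervalIntegral.integral_const_mul]
  field_simp

theorem riemann (g : ℝ → ℝ) (hg : Continuous g) (L : ℝ) (hL : ∀ x y, |g x - g y| ≤ L * |x - y|)
    (n : ℕ) (hn : 0 < n) :
    |(1 / (n : ℝ)) * ∑ i : Fin n, g (π * i / n) - 1 / π * ∫ α in (0 : ℝ)..π, g α| ≤ L * π / n := by
  have hn0 : (0 : ℝ) < n := by exact_mod_cast hn
  have hL0 : 0 ≤ L := by
    have := hL 1 0
    have h2 := abs_nonneg (g 1 - g 0)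
    simp at this
    linarith
  set a : ℕ → ℝ := fun i => π * i / n with ha
  have h1 : ∫ α in (0 : ℝ)..π, g α = ∑ i ∈ Finset.range n, ∫ α in (a i)..(a (i + 1)), g α := by
    rw [intervalIntegral.sum_integral_adjacent_intervals fun i _ => hg.intervalIntegrable _ _]
    have e0 : a 0 = 0 := by simp [ha]
    have en : a n = π := by simp only [ha]; field_simp
    rw [e0, en]
  have h2 : ∀ i : ℕ, |(π / n) * g (a i) - ∫ α in (a i)..(a (i + 1)), g α| ≤ π / n * (L * (π / n)) := by
    intro i
    have hle : a i ≤ a (i + 1) := by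
      simp only [ha]
      push_cast
      gcongr
      linarith
    have hd : a (i + 1) - a i = π / n := by
      simp only [ha]; push_cast; field_simp; ring
    have e1 : (π / n) * g (a i) = ∫ _α in (a i)..(a (i + 1)), g (a i) := by
      rw [intervalIntegral.integral_const, hd, smul_eq_mul]
    rw [e1, ← intervalIntegral.integral_sub intervalIntegrable_const
      (hg.intervalIntegrable _ _)]
    have h3 := intervalIntegral.norm_integral_le_of_norm_le_const (a := a i) (b := a (i + 1))
      (f := fun α => g (a i) - g α) (C := L * (π / n)) (fun α hα => by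
        rw [uIoc_of_le hle] at hα
        rw [Real.norm_eq_abs]
        refine (hL _ _).trans (mul_le_mul_of_nonneg_left ?_ hL0)
        rw [abs_sub_comm, abs_of_nonneg (by linarith [hα.1])]
        linarith [hα.2])
    rw [Real.norm_eq_abs, hd, abs_of_pos (show (0 : ℝ) < π / n by positivity)] at h3
    linarith
  have h3 : (1 / (n : ℝ)) * ∑ i : Fin n, g (π * i / n) - 1 / π * ∫ α in (0 : ℝ)..π, g α =
      1 / π * ∑ i ∈ Finset.range n, ((π / n) * g (a i) - ∫ α in (a i)..(a (i + 1)), g α) := by
    rw [Finset.sum_sub_distrib, ← h1, ← Finset.mul_sum,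
      Finset.sum_range (fun i => g (a i))]
    simp only [ha]
    have hpi := pi_pos.ne'
    field_simp
  rw [h3, abs_mul, abs_of_pos (by positivity)]
  calc 1 / π * |∑ i ∈ Finset.range n, ((π / n) * g (a i) - ∫ α in (a i)..(a (i + 1)), g α)|
      ≤ 1 / π * ∑ i ∈ Finset.range n, π / n * (L * (π / n)) := by
        refine mul_le_mul_of_nonneg_left ?_ (by positivity)
        exact (Finset.abs_sum_le_sum_abs _ _).trans (Finset.sum_le_sum fun i _ => h2 i)
    _ = L * π / n := by
        rw [Finset.sum_const, Finset.card_range, nsmul_eq_mul]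
        have hpi := pi_pos.ne'
        field_simp

/-- the average of `VV` -/
theorem ave_VV {k : ℕ} (w : Fin k → ℂ) (t : Fin k → ℝ) :
    ∃ C : ℝ, ∀ (n : ℕ) (_ : 0 < n) (X Y : Fin n → ℝ),
      (∀ i : Fin n, |X i - cos (π * i / n)| ≤ 1 / n) →
      (∀ i : Fin n, |Y i - sin (π * i / n)| ≤ 1 / n) →
      |(1 / (n : ℝ)) * ∑ i, VV w t (X i) (Y i) - ∑ i, ∑ j, t i * t j * J0 ‖w i - w j‖| ≤ C / n := by
  have one : ∀ z : ℂ, ∀ (n : ℕ) (_ : 0 < n) (X Y : Fin n → ℝ),
      (∀ i : Fin n, |X i - cos (π * i / n)| ≤ 1 / n) →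
      (∀ i : Fin n, |Y i - sin (π * i / n)| ≤ 1 / n) →
      |(1 / (n : ℝ)) * ∑ i, GG z (X i) (Y i) - J0 ‖z‖| ≤ (|z.re| + |z.im|) * (1 + π) / n := by
    intro z n hn X Y hX hY
    have hn0 : (0 : ℝ) < n := by exact_mod_cast hn
    have hcont : Continuous fun α : ℝ => GG z (cos α) (sin α) := by
      unfold GG
      fun_prop
    have hLip : ∀ x y : ℝ, |GG z (cos x) (sin x) - GG z (cos y) (sin y)| ≤
        (|z.re| + |z.im|) * |x - y| := by
      intro x y
      refine (GG_sub z _ _ _ _).trans ?_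
      have h1 := abs_cos_sub_le x y
      have h2 : |sin x - sin y| ≤ |x - y| := Real.abs_sin_sub_sin_le x y
      nlinarith [abs_nonneg z.re, abs_nonneg z.im,
        mul_le_mul_of_nonneg_left h1 (abs_nonneg z.re),
        mul_le_mul_of_nonneg_left h2 (abs_nonneg z.im)]
    have h1 := riemann (fun α => GG z (cos α) (sin α)) hcont _ hLip n hn
    rw [← half z] at h1
    have h2 : |(1 / (n : ℝ)) * ∑ i, GG z (X i) (Y i) -
        (1 / (n : ℝ)) * ∑ i : Fin n, GG z (cos (π * i / n)) (sin (π * i / n))| ≤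
        (|z.re| + |z.im|) / n := by
      rw [← mul_sub, ← Finset.sum_sub_distrib, abs_mul, abs_of_pos (by positivity)]
      calc 1 / (n : ℝ) * |∑ i : Fin n, (GG z (X i) (Y i) -
            GG z (cos (π * i / n)) (sin (π * i / n)))|
          ≤ 1 / (n : ℝ) * ∑ _i : Fin n, (|z.re| + |z.im|) * (1 / n) := by
            refine mul_le_mul_of_nonneg_left ?_ (by positivity)
            refine (Finset.abs_sum_le_sum_abs _ _).trans (Finset.sum_le_sum fun i _ => ?_)
            refine (GG_sub z _ _ _ _).trans ?_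
            rw [add_mul]
            exact add_le_add (mul_le_mul_of_nonneg_left (hX i) (abs_nonneg _))
              (mul_le_mul_of_nonneg_left (hY i) (abs_nonneg _))
        _ = (|z.re| + |z.im|) / n := by
            rw [Finset.sum_const, Finset.card_univ, Fintype.card_fin, nsmul_eq_mul]
            field_simp
    have h3 := abs_sub_le ((1 / (n : ℝ)) * ∑ i, GG z (X i) (Y i))
      ((1 / (n : ℝ)) * ∑ i : Fin n, GG z (cos (π * i / n)) (sin (π * i / n))) (J0 ‖z‖)
    calc _ ≤ _ := h3
      _ ≤ (|z.re| + |z.im|) / n + (|z.re| + |z.im|) * π / n := add_le_add h2 h1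
      _ = _ := by ring
  refine ⟨∑ i, ∑ j, |t i * t j| * ((|(w i - w j).re| + |(w i - w j).im|) * (1 + π)),
    fun n hn X Y hX hY => ?_⟩
  have e : (1 / (n : ℝ)) * ∑ i, VV w t (X i) (Y i) - ∑ i, ∑ j, t i * t j * J0 ‖w i - w j‖ =
      ∑ i, ∑ j, (t i * t j) * ((1 / (n : ℝ)) * ∑ r, GG (w i - w j) (X r) (Y r) -
        J0 ‖w i - w j‖) := by
    have h1 : ∑ r, VV w t (X r) (Y r) =
        ∑ i, ∑ j, (t i * t j) * ∑ r, GG (w i - w j) (X r) (Y r) := by
      unfold VV
      rw [Finset.sum_comm]
      refine Finset.sum_congr rfl fun i _ => ?_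
      rw [Finset.sum_comm]
      refine Finset.sum_congr rfl fun j _ => ?_
      rw [Finset.mul_sum]
      rfl
    rw [h1, Finset.mul_sum, ← Finset.sum_sub_distrib]
    refine Finset.sum_congr rfl fun i _ => ?_
    rw [Finset.mul_sum, ← Finset.sum_sub_distrib]
    refine Finset.sum_congr rfl fun j _ => ?_
    ring
  rw [e, Finset.sum_div]
  refine (Finset.abs_sum_le_sum_abs _ _).trans (Finset.sum_le_sum fun i _ => ?_)
  rw [Finset.sum_div]
  refine (Finset.abs_sum_le_sum_abs _ _).trans (Finset.sum_le_sum fun j _ => ?_)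
  rw [abs_mul, mul_div_assoc]
  exact mul_le_mul_of_nonneg_left (one (w i - w j) n hn X Y hX hY) (abs_nonneg _)

end Pool.Agent.Zk60.BW
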