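import Mathlib

/-!
# Integrals of exponentials over domains tiled by rectangles
-/

set_option autoImplicit false

open Filter Topology Real MeasureTheory Set

namespace Pool.Agent.Zk60.BW

/-- the grid of the lines `Re z ∈ a ℤ` and `Im z ∈ b ℤ` -/
def Grid (a b : ℝ) : Set ℂ := {z | (∃ j : ℤ, z.re = j * a) ∨ ∃ j : ℤ, z.im = j * b}

/-- the oscillating function in one variable -/
noncomputable def osc (a : ℝ) (A : ℤ) (x : ℝ) : ℂ :=
  Complex.exp ((2 * π * A / a : ℝ) * x * Complex.I)

theorem norm_osc (a : ℝ) (A : ℤ) (x : ℝ) : ‖osc a A x‖ = 1 := by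
  unfold osc
  rw [← Complex.ofReal_mul]
  exact Complex.norm_exp_ofReal_mul_I _

theorem continuous_osc (a : ℝ) (A : ℤ) : Continuous (osc a A) := by
  unfold osc
  fun_prop

theorem osc_int (a : ℝ) (ha : 0 < a) (A j : ℤ) : osc a A (j * a) = 1 := by
  unfold osc
  rw [Complex.exp_eq_one_iff]
  refine ⟨A * j, ?_⟩
  push_cast
  have : (a : ℂ) ≠ 0 := by exact_mod_cast ha.ne'
  field_simp

theorem int_osc (a : ℝ) (ha : 0 < a) (A : ℤ) (hA : A ≠ 0) (j : ℤ) :
    ∫ x in Ioc (j * a) ((j + 1 : ℤ) * a), osc a A x = 0 := by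
  rw [← intervalIntegral.integral_of_le (by push_cast; nlinarith)]
  have hc : ((2 * π * A / a : ℝ) : ℂ) * Complex.I ≠ 0 := by
    have : (2 * π * A / a : ℝ) ≠ 0 := by
      have : (A : ℝ) ≠ 0 := by exact_mod_cast hA
      positivity
    exact mul_ne_zero (by exact_mod_cast this) Complex.I_ne_zero
  have h1 : ∀ x : ℝ, osc a A x = Complex.exp (((2 * π * A / a : ℝ) : ℂ) * Complex.I * x) := by
    intro x
    unfold osc
    congr 1
    ring
  simp only [h1]
  rw [integral_exp_mul_complex hc]
  rw [← h1, ← h1, osc_int a ha, osc_int a ha, sub_self, zero_div]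

theorem integrableOn_of_bdd {α : Type*} [MeasurableSpace α] {ν : Measure α} {s : Set α} {f : α → ℂ}
    (hs : ν s < ⊤) (hf : AEStronglyMeasurable f ν) (C : ℝ) (hC : ∀ x, ‖f x‖ ≤ C) :
    IntegrableOn f s ν :=
  Measure.integrableOn_of_bounded (M := C) hs.ne hf (ae_of_all _ hC)

theorem meets_frontier {U s : Set ℝ} (hU : IsOpen U) (hs : IsPreconnected s)
    (h1 : (s ∩ U).Nonempty) (h2 : (s ∩ Uᶜ).Nonempty) : (s ∩ frontier U).Nonempty := by
  by_contra hc
  have hc' : ∀ x ∈ s, x ∉ frontier U := fun x hx hf => hc ⟨x, hx, hf⟩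
  have hsub : s ⊆ U ∪ (closure U)ᶜ := by
    intro x hx
    by_cases hxU : x ∈ U
    · exact Or.inl hxU
    · right
      intro hcl
      exact hc' x hx (by rw [hU.frontier_eq]; exact ⟨hcl, hxU⟩)
  have h3 : (s ∩ (closure U)ᶜ).Nonempty := by
    obtain ⟨x, hx, hxU⟩ := h2
    refine ⟨x, hx, fun hcl => hc' x hx (by rw [hU.frontier_eq]; exact ⟨hcl, hxU⟩)⟩
  obtain ⟨x, -, hx1, hx2⟩ := hs U (closure U)ᶜ hU isClosed_closure.isOpen_compl hsub h1 h3
  exact hx2 (subset_closure hx1)

theorem int_open1 (a : ℝ) (ha : 0 < a) (A : ℤ) (hA : A ≠ 0) (U : Set ℝ) (hU : IsOpen U)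
    (hb : Bornology.IsBounded U) (hf : ∀ x ∈ frontier U, ∃ j : ℤ, x = j * a) :
    ∫ x in U, osc a A x = 0 := by
  have hint : IntegrableOn (osc a A) U :=
    integrableOn_of_bdd hb.measure_lt_top (continuous_osc a A).aestronglyMeasurable 1
      fun x => (norm_osc a A x).le
  rw [← integral_indicator hU.measurableSet]
  have hI : Integrable (U.indicator (osc a A)) := (integrable_indicator_iff hU.measurableSet).2 hint
  have hcov : ⋃ n : ℤ, Ioc (n • a) ((n + 1) • a) = univ := iUnion_Ioc_zsmul ha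
  rw [← setIntegral_univ, ← hcov]
  rw [integral_iUnion (fun n => measurableSet_Ioc) (pairwise_disjoint_Ioc_zsmul a)
    (by rw [hcov]; exact hI.integrableOn)]
  have hz : ∀ n : ℤ, ∫ x in Ioc (n • a) ((n + 1) • a), U.indicator (osc a A) x = 0 := by
    intro n
    rw [setIntegral_indicator hU.measurableSet]
    have hcong : (Ioc (n • a) ((n + 1) • a) ∩ U : Set ℝ) =ᵐ[volume]
        (Ioo (n • a) ((n + 1) • a) ∩ U : Set ℝ) :=
      (Ioo_ae_eq_Ioc.symm).inter (ae_eq_refl U)
    rw [setIntegral_congr_set hcong]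
    by_cases hne : (Ioo (n • a) ((n + 1) • a) ∩ U).Nonempty
    · have hsub : Ioo (n • a) ((n + 1) • a) ⊆ U := by
        by_contra hns
        have h2 : (Ioo (n • a) ((n + 1) • a) ∩ Uᶜ).Nonempty := by
          rw [not_subset] at hns
          obtain ⟨x, h1, h2⟩ := hns
          exact ⟨x, h1, h2⟩
        obtain ⟨x, hx, hxf⟩ := meets_frontier hU isPreconnected_Ioo hne h2
        obtain ⟨j, hj⟩ := hf x hxf
        rw [zsmul_eq_mul, zsmul_eq_mul, mem_Ioo, hj] at hx
        have h3 : (n : ℝ) < j := lt_of_mul_lt_mul_right hx.1 ha.le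
        have h4 : (j : ℝ) < ((n + 1 : ℤ) : ℝ) := lt_of_mul_lt_mul_right hx.2 ha.le
        have h5 : n < j := by exact_mod_cast h3
        have h6 : j < n + 1 := by exact_mod_cast h4
        omega
      rw [inter_eq_left.2 hsub, setIntegral_congr_set Ioo_ae_eq_Ioc, zsmul_eq_mul, zsmul_eq_mul]
      exact int_osc a ha A hA n
    · rw [not_nonempty_iff_eq_empty.1 hne, setIntegral_empty]
  simp only [hz, tsum_zero]

/-- the oscillating function in two variables -/
noncomputable def osc2 (a b : ℝ) (A B : ℤ) (z : ℂ) : ℂ := osc a A z.re * osc b B z.im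

theorem norm_osc2 (a b : ℝ) (A B : ℤ) (z : ℂ) : ‖osc2 a b A B z‖ = 1 := by
  rw [osc2, norm_mul, norm_osc, norm_osc, one_mul]

theorem continuous_osc2 (a b : ℝ) (A B : ℤ) : Continuous (osc2 a b A B) := by
  unfold osc2
  exact ((continuous_osc a A).comp Complex.continuous_re).mul
    ((continuous_osc b B).comp Complex.continuous_im)

theorem null_lines (b : ℝ) : ∀ᵐ y : ℝ, ∀ j : ℤ, y ≠ j * b := by
  rw [ae_all_iff]
  intro j
  exact ae_iff.2 (by simp)

theorem int_open2 (a b : ℝ) (ha : 0 < a) (hb : 0 < b) (A B : ℤ) (hAB : ¬ (A = 0 ∧ B = 0))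
    (Ω : Set ℂ) (hΩ : IsOpen Ω) (hbd : Bornology.IsBounded Ω) (hf : frontier Ω ⊆ Grid a b) :
    ∫ z in Ω, osc2 a b A B z = 0 := by
  have hint : IntegrableOn (osc2 a b A B) Ω :=
    integrableOn_of_bdd hbd.measure_lt_top (continuous_osc2 a b A B).aestronglyMeasurable 1
      fun x => (norm_osc2 a b A B x).le
  obtain ⟨R, hR⟩ := hbd.subset_closedBall 0
  rw [← integral_indicator hΩ.measurableSet]
  have hI : Integrable (Ω.indicator (osc2 a b A B)) :=
    (integrable_indicator_iff hΩ.measurableSet).2 hint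
  have mp := Complex.volume_preserving_equiv_real_prod.symm
  have emb := Complex.measurableEquivRealProd.symm.measurableEmbedding
  rw [← mp.integral_comp emb]
  have hI2 : Integrable (fun p : ℝ × ℝ =>
      Ω.indicator (osc2 a b A B) (Complex.measurableEquivRealProd.symm p)) :=
    (mp.integrable_comp_emb emb).2 hI
  have he : ∀ p : ℝ × ℝ, Complex.measurableEquivRealProd.symm p = ⟨p.1, p.2⟩ := fun p => by
    simp
  simp only [he] at hI2 ⊢
  by_cases hA : A = 0
  · have hB : B ≠ 0 := fun h => hAB ⟨hA, h⟩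
    rw [Measure.volume_eq_prod, integral_prod _ hI2]
    have h0 : ∀ᵐ x : ℝ, ∫ y : ℝ, Ω.indicator (osc2 a b A B) ⟨x, y⟩ = 0 := by
      filter_upwards [null_lines a] with x hx
      have hc : Continuous (fun y : ℝ => (⟨x, y⟩ : ℂ)) := by
        have : (fun y : ℝ => (⟨x, y⟩ : ℂ)) = fun y : ℝ => (x : ℂ) + y * Complex.I := by
          funext y
          apply Complex.ext <;> simp
        rw [this]
        fun_prop
      set V : Set ℝ := (fun y : ℝ => (⟨x, y⟩ : ℂ)) ⁻¹' Ω with hV
      have e : (fun y : ℝ => Ω.indicator (osc2 a b A B) ⟨x, y⟩) =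
          V.indicator (fun y => osc a A x * osc b B y) := by
        funext y
        by_cases hy : (⟨x, y⟩ : ℂ) ∈ Ω
        · rw [indicator_of_mem hy, indicator_of_mem (show y ∈ V from hy)]
          rfl
        · rw [indicator_of_notMem hy, indicator_of_notMem (show y ∉ V from hy)]
      have hVo : IsOpen V := hΩ.preimage hc
      have hVb : Bornology.IsBounded V := by
        refine (Metric.isBounded_closedBall (x := (0 : ℝ)) (r := R)).subset fun y hy => ?_
        have h1 := hR hy
        rw [mem_closedBall_zero_iff] at h1 ⊢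
        exact (Complex.abs_im_le_norm ⟨x, y⟩).trans h1
      rw [e, integral_indicator hVo.measurableSet, integral_const_mul,
        int_open1 b hb B hB V hVo hVb, mul_zero]
      intro y hy
      have h1 := hf (hc.frontier_preimage_subset Ω hy)
      rcases h1 with ⟨j, hj⟩ | ⟨j, hj⟩
      · exact absurd hj (hx j)
      · exact ⟨j, hj⟩
    rw [integral_congr_ae h0, integral_zero]
  · rw [Measure.volume_eq_prod, integral_prod_symm _ hI2]
    have h0 : ∀ᵐ y : ℝ, ∫ x : ℝ, Ω.indicator (osc2 a b A B) ⟨x, y⟩ = 0 := by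
      filter_upwards [null_lines b] with y hy0
      have hc : Continuous (fun x : ℝ => (⟨x, y⟩ : ℂ)) := by
        have : (fun x : ℝ => (⟨x, y⟩ : ℂ)) = fun x : ℝ => (x : ℂ) + y * Complex.I := by
          funext y
          apply Complex.ext <;> simp
        rw [this]
        fun_prop
      set V : Set ℝ := (fun x : ℝ => (⟨x, y⟩ : ℂ)) ⁻¹' Ω with hV
      have e : (fun x : ℝ => Ω.indicator (osc2 a b A B) ⟨x, y⟩) =
          V.indicator (fun x => osc a A x * osc b B y) := by
        funext x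
        by_cases hy : (⟨x, y⟩ : ℂ) ∈ Ω
        · rw [indicator_of_mem hy, indicator_of_mem (show x ∈ V from hy)]
          rfl
        · rw [indicator_of_notMem hy, indicator_of_notMem (show x ∉ V from hy)]
      have hVo : IsOpen V := hΩ.preimage hc
      have hVb : Bornology.IsBounded V := by
        refine (Metric.isBounded_closedBall (x := (0 : ℝ)) (r := R)).subset fun x hx => ?_
        have h1 := hR hx
        rw [mem_closedBall_zero_iff] at h1 ⊢
        exact (Complex.abs_re_le_norm ⟨x, y⟩).trans h1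
      rw [e, integral_indicator hVo.measurableSet, integral_mul_const,
        int_open1 a ha A hA V hVo hVb, zero_mul]
      intro x hx
      have h1 := hf (hc.frontier_preimage_subset Ω hx)
      rcases h1 with ⟨j, hj⟩ | ⟨j, hj⟩
      · exact ⟨j, hj⟩
      · exact absurd hj (hy0 j)
    rw [integral_congr_ae h0, integral_zero]

end Pool.Agent.Zk60.BW
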