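import Pool.Agent.Zk60.BW.Lim
import Pool.Agent.N661.BR.Base

/-!
# The local measures and the random wave
-/

set_option autoImplicit false

open Filter Topology Real MeasureTheory Set ProbabilityTheory
open scoped ContDiff

namespace Pool.Agent.Zk60.BW

open Pool.Agent.W745.RW (lap dx dy)
open Pool.Agent.N661.BR (J0 MW lin IsRandomWave resc IsCutoff IsLocalLimit meas_eval)

variable {a b : ℝ} {k : ℕ}

/-- the quadratic form of the random wave -/
noncomputable def QQ (w : Fin k → ℂ) (t : Fin k → ℝ) : ℝ := ∑ i, ∑ j, t i * t j * J0 ‖w i - w j‖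

theorem QQ_nonneg (w : Fin k → ℂ) (t : Fin k → ℝ) : 0 ≤ QQ w t := by
  obtain ⟨C, hC⟩ := ave_VV w t
  have h1 : ∀ n : ℕ, -(C * (1 / ((n : ℝ) + 1))) ≤ QQ w t := by
    intro n
    have h2 := hC (n + 1) (Nat.succ_pos n) (fun i => cos (π * i / (n + 1 : ℕ)))
      (fun i => sin (π * i / (n + 1 : ℕ))) (fun i => by
        rw [sub_self, abs_zero]; positivity) (fun i => by
        rw [sub_self, abs_zero]; positivity)
    have h3 : 0 ≤ (1 / ((n + 1 : ℕ) : ℝ)) * ∑ i : Fin (n + 1), VV w t (cos (π * i / (n + 1 : ℕ)))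
        (sin (π * i / (n + 1 : ℕ))) :=
      mul_nonneg (by positivity) (Finset.sum_nonneg fun i _ => (VV_le w t _ _).1)
    have h4 := (abs_le.1 h2).2
    have h5 : C / ((n + 1 : ℕ) : ℝ) = C * (1 / ((n : ℝ) + 1)) := by
      push_cast
      ring
    rw [h5] at h4
    unfold QQ
    linarith
  have h6 : Tendsto (fun n : ℕ => -(C * (1 / ((n : ℝ) + 1)))) atTop (𝓝 (-(C * 0))) :=
    ((tendsto_one_div_add_atTop_nhds_zero_nat (𝕜 := ℝ)).const_mul C).neg
  rw [mul_zero, neg_zero] at h6
  exact le_of_tendsto' h6 h1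

theorem QQ_smul (w : Fin k → ℂ) (t : Fin k → ℝ) (s : ℝ) :
    QQ w (fun j => s * t j) = s ^ 2 * QQ w t := by
  unfold QQ
  rw [Finset.mul_sum]
  refine Finset.sum_congr rfl fun i _ => ?_
  rw [Finset.mul_sum]
  refine Finset.sum_congr rfl fun j _ => ?_
  ring

theorem meas_lin (w : Fin k → ℂ) (t : Fin k → ℝ) : Measurable (lin w t) := by
  unfold lin
  exact Finset.measurable_fun_sum _ fun j _ => (meas_eval (w j)).const_mul (t j)

theorem wave_iff (A : (k : ℕ) → (Fin k → ℂ) → (Fin k → ℝ) → ℕ → ℂ)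
    (hA : ∀ k w t, Tendsto (A k w t) atTop (𝓝 ((Real.exp (-(QQ w t) / 2) : ℝ) : ℂ)))
    (μ : Measure MW) [IsProbabilityMeasure μ] :
    (∃ σ : ℕ → ℕ, StrictMono σ ∧ ∀ (k : ℕ) (w : Fin k → ℂ) (t : Fin k → ℝ),
      Tendsto (fun n => A k w t (σ n)) atTop
        (𝓝 (∫ f, Complex.exp (Complex.I * (lin w t f : ℝ)) ∂μ))) ↔ IsRandomWave μ := by
  have key : ∀ (k : ℕ) (w : Fin k → ℂ) (t : Fin k → ℝ) (s : ℝ),
      charFun (μ.map (lin w t)) s =
        ∫ f, Complex.exp (Complex.I * (lin w (fun j => s * t j) f : ℝ)) ∂μ := by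
    intro k w t s
    rw [charFun_apply_real, integral_map (meas_lin w t).aemeasurable (by fun_prop)]
    refine integral_congr_ae (ae_of_all _ fun f => ?_)
    have : lin w (fun j => s * t j) f = s * lin w t f := by
      unfold lin
      rw [Finset.mul_sum]
      exact Finset.sum_congr rfl fun j _ => by ring
    simp only [this]
    congr 1
    push_cast
    ring
  have gau : ∀ (k : ℕ) (w : Fin k → ℂ) (t : Fin k → ℝ) (s : ℝ),
      charFun (gaussianReal 0 (∑ i, ∑ j, t i * t j * J0 ‖w i - w j‖).toNNReal) s =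
        ((Real.exp (-(QQ w (fun j => s * t j)) / 2) : ℝ) : ℂ) := by
    intro k w t s
    rw [charFun_gaussianReal, QQ_smul]
    have h1 : (((∑ i, ∑ j, t i * t j * J0 ‖w i - w j‖).toNNReal : NNReal) : ℝ) = QQ w t :=
      Real.coe_toNNReal _ (QQ_nonneg w t)
    have h2 : ((((∑ i, ∑ j, t i * t j * J0 ‖w i - w j‖).toNNReal : NNReal) : ℝ) : ℂ) =
      (QQ w t : ℂ) := by rw [h1]
    rw [Complex.ofReal_exp]
    congr 1
    push_cast
    rw [h2]
    ring
  constructor
  · rintro ⟨σ, hσ, hlim⟩ k w t
    have : IsProbabilityMeasure (μ.map (lin w t)) :=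
      Measure.isProbabilityMeasure_map (meas_lin w t).aemeasurable
    refine Measure.ext_of_charFun (funext fun s => ?_)
    rw [key, gau]
    exact tendsto_nhds_unique (hlim k w (fun j => s * t j))
      ((hA k w (fun j => s * t j)).comp hσ.tendsto_atTop)
  · intro h
    refine ⟨id, strictMono_id, fun k w t => ?_⟩
    have h1 := key k w t 1
    rw [h k w t, gau] at h1
    simp only [one_mul] at h1
    rw [← h1]
    exact hA k w t

theorem tendsto_cut (ha : 0 < a) (hb : 0 < b) (D : ∀ n, Dat a b n) (φ : ℝ) (Ω : Set ℂ)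
    (hΩ : IsOpen Ω) (hne : Ω.Nonempty) (hbd : Bornology.IsBounded Ω) (hf : frontier Ω ⊆ Grid a b)
    (χ : ℝ → ℝ) (hχ : IsCutoff χ) (w : Fin k → ℂ) (t : Fin k → ℝ) :
    Tendsto (fun n => (1 / volume.real Ω : ℝ) * ∫ z in Ω,
      Complex.exp (Complex.I * ((∑ j, t j * resc χ Ω ((D n).lam) ((D n).u φ) z (w j) : ℝ) : ℂ)))
      atTop (𝓝 ((Real.exp (-(QQ w t) / 2) : ℝ) : ℂ)) := by
  have hfr : (frontier Ω).Nonempty := by
    rw [nonempty_frontier_iff]
    refine ⟨hne, ?_⟩
    rintro rfl
    exact NormedSpace.unbounded_univ ℝ ℂ hbd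
  have hdist : ∀ z ∈ Ω, 0 < Metric.infDist z (frontier Ω) := by
    intro z hz
    refine (isClosed_frontier.notMem_iff_infDist_pos hfr).1 ?_
    rw [hΩ.frontier_eq]
    exact fun h => h.2 hz
  have hvol : 0 < volume.real Ω := by
    rw [measureReal_def]
    exact ENNReal.toReal_pos (hΩ.measure_pos volume hne).ne' hbd.measure_lt_top.ne
  have hvolC : (volume.real Ω : ℂ) ≠ 0 := by exact_mod_cast hvol.ne'
  have h1 := tendsto_char ha hb D φ Ω hΩ hbd hf w t
  have hχm : Measurable (fun x : ℝ => χ (max x 0)) := by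
    refine Continuous.measurable ?_
    exact hχ.smooth.continuousOn.comp_continuous (continuous_id.max continuous_const)
      (fun x => Set.mem_Ici.2 (le_max_right x 0))
  -- the two families
  set f : ℕ → ℂ → ℂ := fun n z =>
    Complex.exp (Complex.I * ((∑ j, t j * resc χ Ω ((D n).lam) ((D n).u φ) z (w j) : ℝ) : ℂ))
    with hfdef
  set g : ℕ → ℂ → ℂ := fun n z => Complex.exp (((∑ j, t j * (D n).u φ
      (z + w j / ((√((D n).lam) : ℝ) : ℂ)) : ℝ) : ℂ) * Complex.I) with hgdef
  have hucont : ∀ n, Continuous ((D n).u φ) := fun n => (contDiff_u (D n) φ).continuous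
  have hgc : ∀ n, Continuous (g n) := by
    intro n
    have := hucont n
    simp only [hgdef]
    refine Complex.continuous_exp.comp ((Complex.continuous_ofReal.comp ?_).mul continuous_const)
    refine continuous_finsetSum _ fun j _ => continuous_const.mul (this.comp ?_)
    exact continuous_id.add continuous_const
  have hrm : ∀ n (v : ℂ), Measurable (fun z => resc χ Ω ((D n).lam) ((D n).u φ) z v) := by
    intro n v
    have e : (fun z => resc χ Ω ((D n).lam) ((D n).u φ) z v) = fun z =>
        (D n).u φ (z + v / (√((D n).lam) : ℝ)) *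
          (fun x : ℝ => χ (max x 0)) (‖v‖ / (√((D n).lam) * Metric.infDist z (frontier Ω))) := by
      funext z
      unfold resc
      have : 0 ≤ ‖v‖ / (√((D n).lam) * Metric.infDist z (frontier Ω)) :=
        div_nonneg (norm_nonneg _) (mul_nonneg (Real.sqrt_nonneg _) Metric.infDist_nonneg)
      simp only [max_eq_left this]
    rw [e]
    refine Measurable.mul ?_ (hχm.comp ?_)
    · exact ((hucont n).comp (continuous_id.add continuous_const)).measurable
    · exact measurable_const.div (measurable_const.mul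
        (Metric.continuous_infDist_pt (frontier Ω)).measurable)
  have hfm : ∀ n, Measurable (f n) := by
    intro n
    simp only [hfdef]
    refine Complex.measurable_exp.comp (measurable_const.mul (Complex.measurable_ofReal.comp ?_))
    exact Finset.measurable_fun_sum _ fun j _ => (hrm n (w j)).const_mul (t j)
  have hfn : ∀ n z, ‖f n z‖ = 1 := by
    intro n z
    simp only [hfdef]
    rw [mul_comm]
    exact Complex.norm_exp_ofReal_mul_I _
  have hgn : ∀ n z, ‖g n z‖ = 1 := by
    intro n z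
    simp only [hgdef]
    exact Complex.norm_exp_ofReal_mul_I _
  have hfi : ∀ n, IntegrableOn (f n) Ω := fun n =>
    integrableOn_of_bdd hbd.measure_lt_top (hfm n).aestronglyMeasurable 1 fun z => (hfn n z).le
  have hgi : ∀ n, IntegrableOn (g n) Ω := fun n =>
    integrableOn_of_bdd hbd.measure_lt_top (hgc n).aestronglyMeasurable 1 fun z => (hgn n z).le
  have hfin : IsFiniteMeasure (volume.restrict Ω) := ⟨by
    rw [Measure.restrict_apply_univ]; exact hbd.measure_lt_top⟩
  have hd : Tendsto (fun n => ∫ z in Ω, (f n z - g n z)) atTop (𝓝 (∫ z in Ω, (0 : ℂ))) := by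
    refine tendsto_integral_of_dominated_convergence (fun _ => 2)
      (fun n => ((hfm n).sub (hgc n).measurable).aestronglyMeasurable)
      (integrable_const _) (fun n => ae_of_all _ fun z => ?_) ?_
    · refine (norm_sub_le _ _).trans ?_
      rw [hfn, hgn]
      norm_num
    · rw [ae_restrict_iff' hΩ.measurableSet]
      refine ae_of_all _ fun z hz => ?_
      obtain ⟨δ, hδ, hδ1⟩ := hχ.one
      have hev : ∀ᶠ n in atTop, ∀ j, χ (‖w j‖ / (√((D n).lam) *
          Metric.infDist z (frontier Ω))) = 1 := by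
        rw [eventually_all]
        intro j
        have hs : Tendsto (fun n => √((D n).lam) * Metric.infDist z (frontier Ω)) atTop atTop :=
          (Real.tendsto_sqrt_atTop.comp (tendsto_lam ha D)).atTop_mul_const (hdist z hz)
        have hq : Tendsto (fun n => ‖w j‖ / (√((D n).lam) * Metric.infDist z (frontier Ω))) atTop
            (𝓝 0) := hs.const_div_atTop _
        filter_upwards [hq.eventually (ge_mem_nhds hδ)] with n hn
        exact hδ1 _ (div_nonneg (norm_nonneg _) (mul_nonneg (Real.sqrt_nonneg _)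
          Metric.infDist_nonneg)) hn
      refine Tendsto.congr' ?_ tendsto_const_nhds
      filter_upwards [hev] with n hn
      have : f n z = g n z := by
        simp only [hfdef, hgdef, resc, hn, mul_one]
        rw [mul_comm]
      rw [this, sub_self]
  rw [integral_zero] at hd
  have h2 : Tendsto (fun n => ∫ z in Ω, f n z) atTop
      (𝓝 ((volume.real Ω : ℂ) * ((Real.exp (-(QQ w t) / 2) : ℝ) : ℂ))) := by
    have := h1.add hd
    rw [add_zero] at this
    refine this.congr fun n => ?_
    rw [integral_sub (hfi n) (hgi n)]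
    simp only [hgdef]
    ring
  have h3 := h2.const_mul (((1 / volume.real Ω : ℝ) : ℂ))
  have e : ((1 / volume.real Ω : ℝ) : ℂ) * ((volume.real Ω : ℂ) *
      ((Real.exp (-(QQ w t) / 2) : ℝ) : ℂ)) = ((Real.exp (-(QQ w t) / 2) : ℝ) : ℂ) := by
    push_cast
    field_simp
  rw [e] at h3
  exact h3

end Pool.Agent.Zk60.BW
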