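import Mathlib

/-!
# Taylor's formula for the exponential function on the imaginary axis; products
-/

set_option autoImplicit false

open Filter Topology Real

namespace Pool.Agent.Zk60.BW

/-- the Taylor polynomial with `m` terms -/
noncomputable def tay (m : ℕ) (x : ℝ) : ℂ :=
  ∑ k ∈ Finset.range m, ((x : ℂ) * Complex.I) ^ k / (k.factorial : ℂ)

theorem hasDerivAt_tay (m : ℕ) (x : ℝ) : HasDerivAt (tay (m + 1)) (Complex.I * tay m x) x := by
  have h1 : ∀ k : ℕ, HasDerivAt (fun x : ℝ => ((x : ℂ) * Complex.I) ^ k / (k.factorial : ℂ))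
      ((k : ℂ) * ((x : ℂ) * Complex.I) ^ (k - 1) * Complex.I / (k.factorial : ℂ)) x := by
    intro k
    have h2 : HasDerivAt (fun x : ℝ => (x : ℂ) * Complex.I) (1 * Complex.I) x :=
      (Complex.ofRealCLM.hasDerivAt (x := x)).mul_const Complex.I
    rw [one_mul] at h2
    exact (h2.pow k).div_const _
  have h3 : HasDerivAt (tay (m + 1)) (∑ k ∈ Finset.range (m + 1),
      (k : ℂ) * ((x : ℂ) * Complex.I) ^ (k - 1) * Complex.I / (k.factorial : ℂ)) x := by
    unfold tay
    exact HasDerivAt.fun_sum fun k _ => h1 k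
  convert h3 using 1
  rw [Finset.sum_range_succ']
  simp only [Nat.cast_zero, zero_mul, zero_div, add_zero, Nat.add_sub_cancel]
  unfold tay
  rw [Finset.mul_sum]
  refine Finset.sum_congr rfl fun k _ => ?_
  rw [Nat.factorial_succ]
  have h4 : (k.factorial : ℂ) ≠ 0 := by exact_mod_cast k.factorial_ne_zero
  have h5 : ((k + 1 : ℕ) : ℂ) ≠ 0 := by exact_mod_cast (Nat.succ_ne_zero k)
  push_cast at h5 ⊢
  field_simp

theorem rem_nonneg (m : ℕ) : ∀ x : ℝ, 0 ≤ x →
    ‖Complex.exp (x * Complex.I) - tay m x‖ ≤ x ^ m / m.factorial := by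
  induction m with
  | zero =>
    intro x _
    simp [tay, Complex.norm_exp_ofReal_mul_I]
  | succ m ih =>
    intro x hx
    have hd : ∀ y : ℝ, HasDerivAt (fun y : ℝ => Complex.exp (y * Complex.I) - tay (m + 1) y)
        (Complex.I * (Complex.exp (y * Complex.I) - tay m y)) y := by
      intro y
      have h2 : HasDerivAt (fun x : ℝ => (x : ℂ) * Complex.I) (1 * Complex.I) y :=
        (Complex.ofRealCLM.hasDerivAt (x := y)).mul_const Complex.I
      have h3 := h2.cexp.sub (hasDerivAt_tay m y)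
      refine h3.congr_deriv ?_
      ring
    have hB : ∀ y : ℝ, HasDerivAt (fun y : ℝ => y ^ (m + 1) / ((m + 1).factorial : ℝ))
        (y ^ m / (m.factorial : ℝ)) y := by
      intro y
      have h2 := (hasDerivAt_pow (m + 1) y).div_const ((m + 1).factorial : ℝ)
      refine h2.congr_deriv ?_
      rw [Nat.factorial_succ]
      have h4 : (m.factorial : ℝ) ≠ 0 := by exact_mod_cast m.factorial_ne_zero
      have h5 : ((m + 1 : ℕ) : ℝ) ≠ 0 := by positivity
      push_cast at h5 ⊢
      field_simp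
    have := image_norm_le_of_norm_deriv_right_le_deriv_boundary (a := 0) (b := x)
      (f := fun y : ℝ => Complex.exp (y * Complex.I) - tay (m + 1) y)
      (f' := fun y => Complex.I * (Complex.exp (y * Complex.I) - tay m y))
      (fun y _ => (hd y).continuousAt.continuousWithinAt)
      (fun y _ => (hd y).hasDerivWithinAt) (B := fun y : ℝ => y ^ (m + 1) / ((m + 1).factorial : ℝ))
      (B' := fun y => y ^ m / (m.factorial : ℝ)) (by
        simp [tay, Finset.sum_range_succ']) hB (fun y hy => by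
        rw [norm_mul, Complex.norm_I, one_mul]
        exact ih y hy.1)
    exact this (Set.right_mem_Icc.2 hx)

theorem tay_neg (m : ℕ) (x : ℝ) : tay m (-x) = (starRingEnd ℂ) (tay m x) := by
  unfold tay
  rw [map_sum]
  refine Finset.sum_congr rfl fun k _ => ?_
  rw [map_div₀, map_pow, map_mul, Complex.conj_ofReal, Complex.conj_I, Complex.conj_natCast]
  congr 2
  push_cast
  ring

theorem rem_bound (m : ℕ) (x : ℝ) :
    ‖Complex.exp (x * Complex.I) - tay m x‖ ≤ |x| ^ m / m.factorial := by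
  rcases le_total 0 x with h | h
  · rw [abs_of_nonneg h]; exact rem_nonneg m x h
  · have h1 := rem_nonneg m (-x) (by linarith)
    rw [abs_of_nonpos h]
    refine le_trans (le_of_eq ?_) h1
    rw [tay_neg, ← RCLike.norm_conj (Complex.exp (x * Complex.I) - tay m x), map_sub]
    congr 2
    rw [← Complex.exp_conj, map_mul, Complex.conj_ofReal, Complex.conj_I]
    congr 1
    push_cast
    ring

theorem norm_prod_sub_le {ι : Type*} (s : Finset ι) (a b : ι → ℂ) (ha : ∀ i, ‖a i‖ ≤ 1)
    (hb : ∀ i, ‖b i‖ ≤ 1) : ‖∏ i ∈ s, a i - ∏ i ∈ s, b i‖ ≤ ∑ i ∈ s, ‖a i - b i‖ := by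
  classical
  induction s using Finset.induction_on with
  | empty => simp
  | insert i s hi ih =>
    rw [Finset.prod_insert hi, Finset.prod_insert hi, Finset.sum_insert hi]
    have e : a i * ∏ i ∈ s, a i - b i * ∏ i ∈ s, b i =
        (a i - b i) * ∏ i ∈ s, a i + b i * (∏ i ∈ s, a i - ∏ i ∈ s, b i) := by ring
    rw [e]
    refine (norm_add_le _ _).trans (add_le_add ?_ ?_)
    · rw [norm_mul]
      refine mul_le_of_le_one_right (norm_nonneg _) ?_
      rw [norm_prod]
      exact Finset.prod_le_one (fun _ _ => norm_nonneg _) fun j _ => ha j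
    · rw [norm_mul]
      calc ‖b i‖ * ‖∏ i ∈ s, a i - ∏ i ∈ s, b i‖ ≤ 1 * ‖∏ i ∈ s, a i - ∏ i ∈ s, b i‖ :=
            mul_le_mul_of_nonneg_right (hb i) (norm_nonneg _)
        _ ≤ _ := by rw [one_mul]; exact ih

theorem pow_div_fact_le (x : ℝ) (hx : 0 ≤ x) (m : ℕ) : x ^ m / m.factorial ≤ Real.exp x :=
  Real.pow_div_factorial_le_exp x hx m

end Pool.Agent.Zk60.BW
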