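import Pool.Agent.Zk60.BW.Trig
import Pool.Agent.Zk60.BW.Tay

/-!
# The independent model
-/

set_option autoImplicit false

open Filter Topology Real MeasureTheory Set

namespace Pool.Agent.Zk60.BW

variable {k : ℕ}

/-- one summand: a function of two phases; `φ` is a fixed phase shift, `(X, Y)` the direction -/
noncomputable def FF (w : Fin k → ℂ) (t : Fin k → ℝ) (φ X Y : ℝ) (p : ℝ × ℝ) : ℝ :=
  ∑ j, t j * (sin (p.1 + (X * (w j).re + φ)) * sin (p.2 + (Y * (w j).im + φ)))

/-- the limiting covariance before the averaging over the directions -/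
noncomputable def VV (w : Fin k → ℂ) (t : Fin k → ℝ) (X Y : ℝ) : ℝ :=
  ∑ i, ∑ j, t i * t j * (cos (X * (w i - w j).re) * cos (Y * (w i - w j).im))

theorem continuous_FF (w : Fin k → ℂ) (t : Fin k → ℝ) (φ X Y : ℝ) : Continuous (FF w t φ X Y) := by
  unfold FF
  fun_prop

/-- the bound -/
noncomputable def TT (t : Fin k → ℝ) : ℝ := ∑ j, |t j|

theorem TT_nonneg (t : Fin k → ℝ) : 0 ≤ TT t := Finset.sum_nonneg fun _ _ => abs_nonneg _

theorem abs_FF_le (w : Fin k → ℂ) (t : Fin k → ℝ) (φ X Y : ℝ) (p : ℝ × ℝ) :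
    |FF w t φ X Y p| ≤ TT t := by
  unfold FF TT
  refine (Finset.abs_sum_le_sum_abs _ _).trans (Finset.sum_le_sum fun j _ => ?_)
  rw [abs_mul, abs_mul]
  have h1 := abs_sin_le_one (p.1 + (X * (w j).re + φ))
  have h2 := abs_sin_le_one (p.2 + (Y * (w j).im + φ))
  have h3 : |sin (p.1 + (X * (w j).re + φ))| * |sin (p.2 + (Y * (w j).im + φ))| ≤ 1 :=
    mul_le_one₀ h1 (abs_nonneg _) h2
  calc |t j| * (|sin (p.1 + (X * (w j).re + φ))| * |sin (p.2 + (Y * (w j).im + φ))|)
      ≤ |t j| * 1 := mul_le_mul_of_nonneg_left h3 (abs_nonneg _)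
    _ = |t j| := mul_one _

theorem int_sin_unif (A : ℝ) : ∫ x, sin (x + A) ∂unif = 0 := by
  rw [integral_unif, intervalIntegral.integral_comp_add_right (fun x => sin x) A, integral_sin,
    zero_add, add_comm (2 * π) A, cos_add_two_pi, sub_self, smul_zero]

theorem int_cos_two_unif (A : ℝ) : ∫ x, cos (2 * x + A) ∂unif = 0 := by
  rw [integral_unif]
  have h1 : ∀ x : ℝ, HasDerivAt (fun x => sin (2 * x + A) / 2) (cos (2 * x + A)) x := by
    intro x
    have h2 : HasDerivAt (fun x : ℝ => 2 * x + A) (2 * 1) x :=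
      ((hasDerivAt_id x).const_mul 2).add_const A
    have h3 := h2.sin.div_const 2
    refine h3.congr_deriv ?_
    ring
  rw [intervalIntegral.integral_eq_sub_of_hasDerivAt (fun x _ => h1 x)
    ((by fun_prop : Continuous fun x : ℝ => cos (2 * x + A)).intervalIntegrable _ _)]
  have e : 2 * (2 * π) + A = (2 * 0 + A) + 2 * π + 2 * π := by ring
  rw [e, sin_add_two_pi, sin_add_two_pi, sub_self, smul_zero]

theorem int_sin_sin_unif (A B : ℝ) : ∫ x, sin (x + A) * sin (x + B) ∂unif = cos (A - B) / 2 := by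
  have h1 : ∀ x : ℝ, sin (x + A) * sin (x + B) = cos (A - B) / 2 - cos (2 * x + (A + B)) / 2 := by
    intro x
    have e1 : cos (A - B) = cos ((x + A) - (x + B)) := by congr 1; ring
    have e2 : cos (2 * x + (A + B)) = cos ((x + A) + (x + B)) := by congr 1; ring
    rw [cos_sub (x + A) (x + B)] at e1
    rw [cos_add (x + A) (x + B)] at e2
    linarith
  simp only [h1]
  have hi : Integrable (fun x : ℝ => cos (2 * x + (A + B)) / 2) unif := by
    refine Integrable.of_bound (by fun_prop) (1 / 2) (ae_of_all _ fun x => ?_)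
    rw [norm_div, Real.norm_eq_abs, Real.norm_eq_abs, abs_of_pos (by norm_num : (0 : ℝ) < 2)]
    have := abs_cos_le_one (2 * x + (A + B))
    linarith
  rw [integral_sub (integrable_const _) hi, integral_const, integral_div, int_cos_two_unif]
  simp

theorem integrable_FFpow (w : Fin k → ℂ) (t : Fin k → ℝ) (φ X Y : ℝ) (r : ℕ) :
    Integrable (fun p => FF w t φ X Y p ^ r) (unif.prod unif) := by
  refine Integrable.of_bound ((continuous_FF w t φ X Y).pow r).aestronglyMeasurable (TT t ^ r)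
    (ae_of_all _ fun p => ?_)
  rw [norm_pow, Real.norm_eq_abs]
  exact pow_le_pow_left₀ (abs_nonneg _) (abs_FF_le w t φ X Y p) r

theorem int_FF (w : Fin k → ℂ) (t : Fin k → ℝ) (φ X Y : ℝ) :
    ∫ p, FF w t φ X Y p ∂(unif.prod unif) = 0 := by
  unfold FF
  rw [integral_finsetSum]
  · refine Finset.sum_eq_zero fun j _ => ?_
    rw [integral_const_mul, integral_prod_mul (μ := unif) (ν := unif)
      (fun x => sin (x + (X * (w j).re + φ))) (fun x => sin (x + (Y * (w j).im + φ))),
      int_sin_unif, zero_mul, mul_zero]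
  · intro j _
    refine Integrable.of_bound (by fun_prop) (|t j|) (ae_of_all _ fun p => ?_)
    rw [Real.norm_eq_abs, abs_mul, abs_mul]
    have h1 := abs_sin_le_one (p.1 + (X * (w j).re + φ))
    have h2 := abs_sin_le_one (p.2 + (Y * (w j).im + φ))
    exact mul_le_of_le_one_right (abs_nonneg _) (mul_le_one₀ h1 (abs_nonneg _) h2)

theorem int_FF_sq (w : Fin k → ℂ) (t : Fin k → ℝ) (φ X Y : ℝ) :
    ∫ p, FF w t φ X Y p ^ 2 ∂(unif.prod unif) = VV w t X Y / 4 := by
  have e : ∀ p : ℝ × ℝ, FF w t φ X Y p ^ 2 = ∑ i, ∑ j, (t i * t j) *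
      ((sin (p.1 + (X * (w i).re + φ)) * sin (p.1 + (X * (w j).re + φ))) *
        (sin (p.2 + (Y * (w i).im + φ)) * sin (p.2 + (Y * (w j).im + φ)))) := by
    intro p
    unfold FF
    rw [pow_two, Finset.sum_mul_sum]
    refine Finset.sum_congr rfl fun i _ => Finset.sum_congr rfl fun j _ => ?_
    ring
  have hint : ∀ i j : Fin k, Integrable (fun p : ℝ × ℝ => (t i * t j) *
      ((sin (p.1 + (X * (w i).re + φ)) * sin (p.1 + (X * (w j).re + φ))) *
        (sin (p.2 + (Y * (w i).im + φ)) * sin (p.2 + (Y * (w j).im + φ))))) (unif.prod unif) := by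
    intro i j
    refine Integrable.of_bound (by fun_prop) (|t i * t j|) (ae_of_all _ fun p => ?_)
    have hs : ∀ a b : ℝ, |sin a * sin b| ≤ 1 := fun a b => by
      rw [abs_mul]
      exact mul_le_one₀ (abs_sin_le_one _) (abs_nonneg _) (abs_sin_le_one _)
    rw [Real.norm_eq_abs, abs_mul (t i * t j)]
    refine mul_le_of_le_one_right (abs_nonneg _) ?_
    rw [abs_mul]
    exact mul_le_one₀ (hs _ _) (abs_nonneg _) (hs _ _)
  simp only [e]
  rw [integral_finsetSum _ fun i _ => integrable_finsetSum _ fun j _ => hint i j]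
  unfold VV
  rw [Finset.sum_div]
  refine Finset.sum_congr rfl fun i _ => ?_
  rw [integral_finsetSum _ fun j _ => hint i j, Finset.sum_div]
  refine Finset.sum_congr rfl fun j _ => ?_
  rw [integral_const_mul, integral_prod_mul (μ := unif) (ν := unif)
    (fun x => sin (x + (X * (w i).re + φ)) * sin (x + (X * (w j).re + φ)))
    (fun x => sin (x + (Y * (w i).im + φ)) * sin (x + (Y * (w j).im + φ))),
    int_sin_sin_unif, int_sin_sin_unif]
  have e1 : X * (w i).re + φ - (X * (w j).re + φ) = X * (w i - w j).re := by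
    rw [Complex.sub_re]; ring
  have e2 : Y * (w i).im + φ - (Y * (w j).im + φ) = Y * (w i - w j).im := by
    rw [Complex.sub_im]; ring
  rw [e1, e2]
  ring

theorem VV_le (w : Fin k → ℂ) (t : Fin k → ℝ) (X Y : ℝ) : 0 ≤ VV w t X Y ∧
    VV w t X Y ≤ 4 * TT t ^ 2 := by
  have h := int_FF_sq w t 0 X Y
  constructor
  · have h0 : 0 ≤ ∫ p, FF w t 0 X Y p ^ 2 ∂(unif.prod unif) := integral_nonneg fun p => sq_nonneg _
    linarith
  · have h1 : ∫ p, FF w t 0 X Y p ^ 2 ∂(unif.prod unif) ≤ ∫ _p, TT t ^ 2 ∂(unif.prod unif) := by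
      refine integral_mono (integrable_FFpow w t 0 X Y 2) (integrable_const _) fun p => ?_
      have := abs_FF_le w t 0 X Y p
      have h3 := pow_le_pow_left₀ (abs_nonneg _) this 2
      rwa [sq_abs] at h3
    rw [integral_const] at h1
    simp at h1
    linarith

/-- exponential moments -/
theorem int_exp_FF (w : Fin k → ℂ) (t : Fin k → ℝ) (φ X Y ρ : ℝ) (hρ : |ρ| * TT t ≤ 1) :
    ∫ p, Real.exp (ρ * FF w t φ X Y p) ∂(unif.prod unif) ≤ Real.exp (ρ ^ 2 * TT t ^ 2) := by
  have h1 : ∀ p, Real.exp (ρ * FF w t φ X Y p) ≤ 1 + ρ * FF w t φ X Y p + ρ ^ 2 * TT t ^ 2 := by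
    intro p
    have hF := abs_FF_le w t φ X Y p
    have h2 : |ρ * FF w t φ X Y p| ≤ 1 := by
      rw [abs_mul]
      exact (mul_le_mul_of_nonneg_left hF (abs_nonneg _)).trans hρ
    have h3 := abs_le.1 (Real.abs_exp_sub_one_sub_id_le h2)
    have h4 : (ρ * FF w t φ X Y p) ^ 2 ≤ ρ ^ 2 * TT t ^ 2 := by
      rw [mul_pow]
      refine mul_le_mul_of_nonneg_left ?_ (sq_nonneg _)
      rw [← sq_abs]
      exact pow_le_pow_left₀ (abs_nonneg _) hF 2
    linarith [h3.2]
  have hi1 : Integrable (fun p => FF w t φ X Y p) (unif.prod unif) := by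
    simpa using integrable_FFpow w t φ X Y 1
  have hi2 : Integrable (fun p => Real.exp (ρ * FF w t φ X Y p)) (unif.prod unif) := by
    refine Integrable.of_bound
      (Real.continuous_exp.comp (continuous_const.mul (continuous_FF w t φ X Y))).aestronglyMeasurable
      (Real.exp 1) (ae_of_all _ fun p => ?_)
    rw [Real.norm_eq_abs, abs_of_pos (Real.exp_pos _)]
    refine Real.exp_le_exp.2 ?_
    have hF := abs_FF_le w t φ X Y p
    refine (le_abs_self _).trans ?_
    rw [abs_mul]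
    exact (mul_le_mul_of_nonneg_left hF (abs_nonneg _)).trans hρ
  have hA : Integrable (fun p => (1 : ℝ) + ρ * FF w t φ X Y p) (unif.prod unif) :=
    (integrable_const 1).add (hi1.const_mul ρ)
  have hB : Integrable (fun p => (1 : ℝ) + ρ * FF w t φ X Y p + ρ ^ 2 * TT t ^ 2)
      (unif.prod unif) := hA.add (integrable_const _)
  calc ∫ p, Real.exp (ρ * FF w t φ X Y p) ∂(unif.prod unif)
      ≤ ∫ p, (1 + ρ * FF w t φ X Y p + ρ ^ 2 * TT t ^ 2) ∂(unif.prod unif) :=
        integral_mono hi2 hB h1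
    _ = 1 + ρ ^ 2 * TT t ^ 2 := by
        rw [integral_add hA (integrable_const _),
          integral_add (integrable_const _) (hi1.const_mul ρ), integral_const_mul, int_FF]
        simp
    _ ≤ Real.exp (ρ ^ 2 * TT t ^ 2) := by
        have := Real.add_one_le_exp (ρ ^ 2 * TT t ^ 2)
        linarith

/-- characteristic functions -/
theorem int_char_FF (w : Fin k → ℂ) (t : Fin k → ℝ) (φ X Y s : ℝ) :
    ‖∫ p, Complex.exp ((s * FF w t φ X Y p : ℝ) * Complex.I) ∂(unif.prod unif) -
      ((1 - s ^ 2 * VV w t X Y / 8 : ℝ) : ℂ)‖ ≤ |s| ^ 3 * TT t ^ 3 / 6 := by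
  have hi1 : Integrable (fun p => ((FF w t φ X Y p : ℝ) : ℂ)) (unif.prod unif) := by
    have := (integrable_FFpow w t φ X Y 1).ofReal (𝕜 := ℂ)
    simpa using this
  have hi2 : Integrable (fun p => ((FF w t φ X Y p ^ 2 : ℝ) : ℂ)) (unif.prod unif) :=
    (integrable_FFpow w t φ X Y 2).ofReal
  have hc := continuous_FF w t φ X Y
  have hi3 : Integrable (fun p => Complex.exp ((s * FF w t φ X Y p : ℝ) * Complex.I))
      (unif.prod unif) := by
    refine Integrable.of_bound ?_ 1 (ae_of_all _ fun p => ?_)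
    · exact (Complex.continuous_exp.comp ((Complex.continuous_ofReal.comp
        (continuous_const.mul hc)).mul continuous_const)).aestronglyMeasurable
    · rw [Complex.norm_exp_ofReal_mul_I]
  have hA : Integrable (fun p => (1 : ℂ) + (s * Complex.I) * ((FF w t φ X Y p : ℝ) : ℂ))
      (unif.prod unif) := (integrable_const 1).add (hi1.const_mul _)
  have hB : Integrable (fun p => (1 : ℂ) + (s * Complex.I) * ((FF w t φ X Y p : ℝ) : ℂ) -
      ((s ^ 2 / 2 : ℝ) : ℂ) * ((FF w t φ X Y p ^ 2 : ℝ) : ℂ))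
      (unif.prod unif) := hA.sub (hi2.const_mul _)
  have e1 : ((1 - s ^ 2 * VV w t X Y / 8 : ℝ) : ℂ) =
      ∫ p, (1 + (s * Complex.I) * (FF w t φ X Y p : ℝ) - (s ^ 2 / 2 : ℝ) *
        ((FF w t φ X Y p ^ 2 : ℝ) : ℂ)) ∂(unif.prod unif) := by
    rw [integral_sub hA (hi2.const_mul _),
      integral_add (integrable_const _) (hi1.const_mul _), integral_const_mul, integral_const_mul,
      integral_complex_ofReal, integral_complex_ofReal, int_FF, int_FF_sq]
    simp
    ring
  rw [e1, ← integral_sub hi3 hB]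
  have h1 : ∀ p, ‖Complex.exp ((s * FF w t φ X Y p : ℝ) * Complex.I) -
      (1 + (s * Complex.I) * (FF w t φ X Y p : ℝ) - (s ^ 2 / 2 : ℝ) *
        ((FF w t φ X Y p ^ 2 : ℝ) : ℂ))‖ ≤ |s| ^ 3 * TT t ^ 3 / 6 := by
    intro p
    have h2 := rem_bound 3 (s * FF w t φ X Y p)
    have e2 : tay 3 (s * FF w t φ X Y p) = 1 + (s * Complex.I) * (FF w t φ X Y p : ℝ) -
        (s ^ 2 / 2 : ℝ) * ((FF w t φ X Y p ^ 2 : ℝ) : ℂ) := by
      unfold tay
      rw [Finset.sum_range_succ, Finset.sum_range_succ, Finset.sum_range_succ]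
      simp only [Finset.range_zero, Finset.sum_empty, Nat.factorial]
      have hI := Complex.I_sq
      push_cast
      linear_combination ((s : ℂ) ^ 2 * (FF w t φ X Y p : ℂ) ^ 2 / 2) * hI
    rw [e2] at h2
    refine h2.trans ?_
    have h3 : |s * FF w t φ X Y p| ^ 3 ≤ |s| ^ 3 * TT t ^ 3 := by
      rw [abs_mul, mul_pow]
      exact mul_le_mul_of_nonneg_left (pow_le_pow_left₀ (abs_nonneg _) (abs_FF_le w t φ X Y p) 3)
        (by positivity)
    have h4 : ((3 : ℕ).factorial : ℝ) = 6 := by norm_num [Nat.factorial]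
    rw [h4]
    exact div_le_div_of_nonneg_right h3 (by norm_num)
  refine (norm_integral_le_of_norm_le_const (ae_of_all _ h1)).trans ?_
  simp

end Pool.Agent.Zk60.BW
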