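import Pool.Agent.Zk60.BW.Wave

/-!
# Normalization and the limit of the characteristic functions
-/

set_option autoImplicit false

open Filter Topology Real MeasureTheory Set ProbabilityTheory
open scoped ContDiff

namespace Pool.Agent.Zk60.BW

open Pool.Agent.W745.RW (lap dx dy)
open Pool.Agent.N661.BR (J0)

variable {k n : ℕ}

theorem int_SM_sq (w : Fin k → ℂ) (t : Fin k → ℝ) (φ : ℝ) (X Y : Fin n → ℝ) (hn : 0 < n) :
    ∫ x, SM w t φ X Y x ^ 2 ∂(PP n) = (1 / (n : ℝ)) * ∑ i, VV w t (X i) (Y i) := by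
  have hn0 : (0 : ℝ) < n := by exact_mod_cast hn
  have hmem : ∀ i : Fin n, MemLp (fun p => FF w t φ (X i) (Y i) p) 2 (unif.prod unif) := fun i =>
    MemLp.of_bound (continuous_FF w t φ (X i) (Y i)).aestronglyMeasurable (TT t)
      (ae_of_all _ fun p => by rw [Real.norm_eq_abs]; exact abs_FF_le w t φ _ _ p)
  have h1 := variance_sum_pi (μ := fun _ : Fin n => unif.prod unif)
    (X := fun (i : Fin n) (p : ℝ × ℝ) => FF w t φ (X i) (Y i) p) hmem
  have hmeas : AEMeasurable (∑ i, fun x : Fin n → ℝ × ℝ => FF w t φ (X i) (Y i) (x i))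
      (Measure.pi fun _ : Fin n => unif.prod unif) := by
    have e : (∑ i, fun x : Fin n → ℝ × ℝ => FF w t φ (X i) (Y i) (x i)) =
        fun x => ∑ i, FF w t φ (X i) (Y i) (x i) := by
      funext x
      rw [Finset.sum_apply]
    rw [e]
    exact (continuous_finsetSum _ fun i _ =>
      (continuous_FF w t φ (X i) (Y i)).comp (continuous_apply i)).measurable.aemeasurable
  have h2 : ∫ x, (∑ i, fun x : Fin n → ℝ × ℝ => FF w t φ (X i) (Y i) (x i)) x
      ∂(Measure.pi fun _ : Fin n => unif.prod unif) = 0 := by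
    simp only [Finset.sum_apply]
    rw [integral_finsetSum]
    · refine Finset.sum_eq_zero fun i _ => ?_
      rw [integral_comp_eval (μ := fun _ : Fin n => unif.prod unif)
        (f := fun p => FF w t φ (X i) (Y i) p)
        (continuous_FF w t φ (X i) (Y i)).aestronglyMeasurable, int_FF]
    · intro i _
      refine Integrable.of_bound ?_ (TT t) (ae_of_all _ fun p => by
        rw [Real.norm_eq_abs]; exact abs_FF_le w t φ _ _ _)
      exact ((continuous_FF w t φ (X i) (Y i)).comp (continuous_apply i)).aestronglyMeasurable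
  rw [variance_of_integral_eq_zero hmeas h2] at h1
  have h3 : ∀ i : Fin n, Var[fun p => FF w t φ (X i) (Y i) p; unif.prod unif] =
      VV w t (X i) (Y i) / 4 := by
    intro i
    rw [variance_of_integral_eq_zero (continuous_FF w t φ (X i) (Y i)).aemeasurable
      (int_FF w t φ (X i) (Y i)), int_FF_sq]
  simp only [h3, Finset.sum_apply] at h1
  unfold SM
  simp only [mul_pow]
  rw [integral_const_mul]
  unfold PP
  rw [h1, div_pow, Real.sq_sqrt hn0.le, ← Finset.sum_div]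
  field_simp
  ring

variable {a b : ℝ}

theorem Dat.comb1 (d : Dat a b n) (ha : 0 < a) (hb : 0 < b) (φ : ℝ) (z : ℂ) :
    d.u φ z = SM (fun _ : Fin 1 => (0 : ℂ)) (fun _ => 1) φ (fun i => 2 * (d.m i : ℝ) / d.N)
        (fun i => 2 * (d.l i : ℝ) * a / (b * d.N)) (Ph a b d.m d.l z) := by
  rw [← d.comb ha hb]
  simp

theorem Dat.normalized (d : Dat a b n) (ha : 0 < a) (hb : 0 < b) (φ : ℝ) (Ω : Set ℂ)
    (hΩ : IsOpen Ω) (hbd : Bornology.IsBounded Ω) (hf : frontier Ω ⊆ Grid a b) :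
    ∫ z in Ω, d.u φ z ^ 2 = volume.real Ω := by
  set S := SM (fun _ : Fin 1 => (0 : ℂ)) (fun _ => 1) φ (fun i => 2 * (d.m i : ℝ) / d.N)
        (fun i => 2 * (d.l i : ℝ) * a / (b * d.N)) with hS
  have h1 := TP_pow (SM_mem (fun _ : Fin 1 => (0 : ℂ)) (fun _ => 1) φ
    (fun i => 2 * (d.m i : ℝ) / d.N) (fun i => 2 * (d.l i : ℝ) * a / (b * d.N))) 2
  have h2 := TP_mono (n := n + 1) (show 2 * 1 ≤ 2 * (n + 1) by omega)
    (show 2 * 1 ≤ 2 * (n + 1) by omega) h1
  obtain ⟨-, -, h3⟩ := transfer a b ha hb d.m d.l (2 * (n + 1)) d.im d.il Ω hΩ hbd hf _ h2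
  have h4 : ∀ x, ((fun x => ((S x : ℝ) : ℂ)) ^ 2) x = ((S x ^ 2 : ℝ) : ℂ) := by
    intro x
    simp
  simp only [← hS, h4] at h3
  rw [integral_complex_ofReal, integral_complex_ofReal, int_SM_sq _ _ _ _ _ (Nat.succ_pos n)] at h3
  have h5 : ∀ X Y : ℝ, VV (fun _ : Fin 1 => (0 : ℂ)) (fun _ => 1) X Y = 1 := by
    intro X Y
    simp [VV]
  simp only [h5] at h3
  have h6 : (1 / ((n + 1 : ℕ) : ℝ)) * ∑ _i : Fin (n + 1), (1 : ℝ) = 1 := by
    rw [Finset.sum_const, Finset.card_univ, Fintype.card_fin, nsmul_eq_mul, mul_one]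
    have : ((n + 1 : ℕ) : ℝ) ≠ 0 := by positivity
    field_simp
  rw [h6, Complex.ofReal_one, mul_one] at h3
  have h7 : ∀ z, d.u φ z ^ 2 = S (Ph a b d.m d.l z) ^ 2 := by
    intro z
    rw [d.comb1 ha hb]
  simp only [h7]
  exact_mod_cast h3

theorem tendsto_char (ha : 0 < a) (hb : 0 < b) (D : ∀ n, Dat a b n) (φ : ℝ) (Ω : Set ℂ)
    (hΩ : IsOpen Ω) (hbd : Bornology.IsBounded Ω) (hf : frontier Ω ⊆ Grid a b)
    (w : Fin k → ℂ) (t : Fin k → ℝ) :
    Tendsto (fun n => ∫ z in Ω, Complex.exp (((∑ j, t j * (D n).u φ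
      (z + w j / ((√((D n).lam) : ℝ) : ℂ)) : ℝ) : ℂ) * Complex.I)) atTop
      (𝓝 ((volume.real Ω : ℂ) *
        ((Real.exp (-(∑ i, ∑ j, t i * t j * J0 ‖w i - w j‖) / 2) : ℝ) : ℂ))) := by
  obtain ⟨C, hC⟩ := ave_VV w t
  set Q := ∑ i, ∑ j, t i * t j * J0 ‖w i - w j‖ with hQ
  set av : ℕ → ℝ := fun n => (1 / ((n + 1 : ℕ) : ℝ)) * ∑ i, VV w t
    ((fun i => 2 * ((D n).m i : ℝ) / (D n).N) i)
    ((fun i => 2 * ((D n).l i : ℝ) * a / (b * (D n).N)) i) with hav
  have hinv : Tendsto (fun n : ℕ => 1 / ((n + 1 : ℕ) : ℝ)) atTop (𝓝 0) := by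
    have := tendsto_one_div_add_atTop_nhds_zero_nat (𝕜 := ℝ)
    refine this.congr fun n => ?_
    push_cast
    rfl
  have h1 : Tendsto av atTop (𝓝 Q) := by
    rw [tendsto_iff_dist_tendsto_zero]
    refine squeeze_zero (fun _ => dist_nonneg) (g := fun n : ℕ => C * (1 / ((n + 1 : ℕ) : ℝ)))
      (fun n => ?_) (by simpa using hinv.const_mul C)
    rw [Real.dist_eq]
    refine (hC (n + 1) (Nat.succ_pos n) _ _ (fun i => ?_) fun i => ?_).trans (le_of_eq (by ring))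
    · exact (D n).dirX i
    · exact (D n).dirY i
  have h2 : Tendsto (fun n => ((Real.exp (-(av n) / 2) : ℝ) : ℂ)) atTop
      (𝓝 ((Real.exp (-Q / 2) : ℝ) : ℂ)) := by
    refine (Complex.continuous_ofReal.tendsto _).comp ?_
    refine (Real.continuous_exp.tendsto _).comp ?_
    exact (h1.neg).div_const 2
  have h3 : Tendsto (fun n => (volume.real Ω : ℂ) * ((Real.exp (-(av n) / 2) : ℝ) : ℂ)) atTop
      (𝓝 ((volume.real Ω : ℂ) * ((Real.exp (-Q / 2) : ℝ) : ℂ))) := h2.const_mul _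
  refine tendsto_of_tendsto_of_dist h3 ?_
  have hv : 0 ≤ volume.real Ω := measureReal_nonneg
  set E : ℕ → ℝ := fun n => volume.real Ω * (4 * ((1 / 4) ^ (n + 1) * Real.exp (16 * TT t ^ 2))) +
    volume.real Ω * (4 / 3 * TT t ^ 3 / √((n + 1 : ℕ) : ℝ) + 4 * TT t ^ 4 / ((n + 1 : ℕ) : ℝ))
    with hE
  have hE0 : Tendsto E atTop (𝓝 0) := by
    have e1 : Tendsto (fun n : ℕ => (1 / 4 : ℝ) ^ (n + 1)) atTop (𝓝 0) :=
      (tendsto_pow_atTop_nhds_zero_of_lt_one (by norm_num) (by norm_num)).comp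
        (tendsto_add_atTop_nat 1)
    have e2 : Tendsto (fun n : ℕ => (√((n + 1 : ℕ) : ℝ))⁻¹) atTop (𝓝 0) := by
      refine tendsto_inv_atTop_zero.comp (Real.tendsto_sqrt_atTop.comp ?_)
      exact tendsto_natCast_atTop_atTop.comp (tendsto_add_atTop_nat 1)
    have e3 : Tendsto (fun n : ℕ => volume.real Ω * (4 * ((1 / 4 : ℝ) ^ (n + 1) *
        Real.exp (16 * TT t ^ 2)))) atTop (𝓝 (volume.real Ω * (4 * (0 *
        Real.exp (16 * TT t ^ 2))))) := ((e1.mul_const _).const_mul _).const_mul _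
    have e4 : Tendsto (fun n : ℕ => volume.real Ω * (4 / 3 * TT t ^ 3 * (√((n + 1 : ℕ) : ℝ))⁻¹ +
        4 * TT t ^ 4 * (1 / ((n + 1 : ℕ) : ℝ)))) atTop (𝓝 (volume.real Ω * (4 / 3 * TT t ^ 3 * 0 +
        4 * TT t ^ 4 * 0))) := ((e2.const_mul _).add (hinv.const_mul _)).const_mul _
    have e5 := e3.add e4
    simp only [zero_mul, mul_zero, add_zero] at e5
    refine e5.congr fun n => ?_
    simp only [hE, div_eq_mul_inv, one_mul]
  refine squeeze_zero' (Eventually.of_forall fun _ => dist_nonneg) (g := E) ?_ hE0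
  obtain ⟨n0, hn0⟩ := exists_nat_ge (16 * TT t ^ 2)
  filter_upwards [eventually_ge_atTop n0] with n hn
  have hT : 16 * TT t ^ 2 ≤ ((n + 1 : ℕ) : ℝ) := by
    refine hn0.trans ?_
    exact_mod_cast (by omega : n0 ≤ n + 1)
  have hT2 : 2 * TT t ^ 2 ≤ ((n + 1 : ℕ) : ℝ) := by
    have := sq_nonneg (TT t)
    linarith
  have c1 := compare a b ha hb (D n).m (D n).l (2 * (n + 1)) (D n).im (D n).il Ω hΩ hbd hf w t φ
    (fun i => 2 * ((D n).m i : ℝ) / (D n).N) (fun i => 2 * ((D n).l i : ℝ) * a / (b * (D n).N))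
    (Nat.succ_pos n) le_rfl hT
  have c2 := char_ind w t φ (fun i => 2 * ((D n).m i : ℝ) / (D n).N)
    (fun i => 2 * ((D n).l i : ℝ) * a / (b * (D n).N)) (Nat.succ_pos n) hT2
  rw [dist_comm, dist_eq_norm]
  simp only [(D n).comb ha hb φ w t]
  have c3 : ∀ A B C' : ℂ, ‖A - C'‖ ≤ ‖A - B‖ + ‖B - C'‖ := fun A B C' => by
    have : A - C' = (A - B) + (B - C') := by ring
    rw [this]
    exact norm_add_le _ _
  refine (c3 _ _ _).trans (add_le_add c1 ?_)
  rw [← mul_sub, norm_mul, Complex.norm_real, Real.norm_eq_abs, abs_of_nonneg hv]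
  exact mul_le_mul_of_nonneg_left c2 hv

theorem tendsto_lam (ha : 0 < a) (D : ∀ n, Dat a b n) :
    Tendsto (fun n => (D n).lam) atTop atTop := by
  have h1 : Tendsto (fun n : ℕ => (π / a) ^ 2 * (2 : ℝ) ^ n) atTop atTop :=
    (tendsto_pow_atTop_atTop_of_one_lt (by norm_num : (1 : ℝ) < 2)).const_mul_atTop (by positivity)
  refine tendsto_atTop_mono (fun n => ?_) h1
  have h2 : (2 : ℝ) ^ n ≤ (D n).N := by
    have h3 : 2 ^ n ≤ (D n).N := (Nat.pow_le_pow_right (by norm_num) (Nat.le_succ n)).trans (D n).big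
    exact_mod_cast h3
  have h4 : (1 : ℝ) ≤ (2 : ℝ) ^ n := one_le_pow₀ (by norm_num)
  unfold Dat.lam
  have h5 : (π * (D n).N / a) ^ 2 = (π / a) ^ 2 * ((D n).N : ℝ) ^ 2 := by ring
  rw [h5]
  refine mul_le_mul_of_nonneg_left ?_ (by positivity)
  nlinarith

end Pool.Agent.Zk60.BW
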