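import Mathlib

/-!
# Many points on an ellipse without short relations
-/

set_option autoImplicit false

open Filter Topology Real

namespace Pool.Agent.Zk60.BW

theorem ratio_tendsto (M : ℕ) (hM : 2 ≤ M) (τ : ℝ) (hτ : 0 < τ) :
    Tendsto (fun j : ℕ => ((M : ℝ) ^ (j + 1)) / ((M : ℝ) * ⌊(M : ℝ) ^ j / τ⌋₊ + 1)) atTop (𝓝 τ) := by
  have hM0 : (0 : ℝ) < M := by positivity
  have hM1 : (1 : ℝ) < M := by exact_mod_cast (show 1 < M by omega)
  have hp : Tendsto (fun j : ℕ => (1 : ℝ) / (M : ℝ) ^ j) atTop (𝓝 0) := by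
    have := tendsto_pow_atTop_nhds_zero_of_lt_one (r := (M : ℝ)⁻¹) (by positivity)
      (inv_lt_one_of_one_lt₀ hM1)
    refine this.congr fun j => ?_
    rw [inv_pow, one_div]
  have h1 : Tendsto (fun j : ℕ => ((M : ℝ) * ⌊(M : ℝ) ^ j / τ⌋₊ + 1) / ((M : ℝ) ^ (j + 1))) atTop
      (𝓝 (1 / τ)) := by
    rw [tendsto_iff_dist_tendsto_zero]
    refine squeeze_zero (fun _ => dist_nonneg) (fun j => ?_) hp
    have hj : (0 : ℝ) < (M : ℝ) ^ j := by positivity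
    have a1 := Nat.floor_le (show (0 : ℝ) ≤ (M : ℝ) ^ j / τ by positivity)
    have a2 := Nat.lt_floor_add_one ((M : ℝ) ^ j / τ)
    rw [Real.dist_eq]
    have e : ((M : ℝ) * ⌊(M : ℝ) ^ j / τ⌋₊ + 1) / ((M : ℝ) ^ (j + 1)) - 1 / τ =
        ((M : ℝ) * (⌊(M : ℝ) ^ j / τ⌋₊ - (M : ℝ) ^ j / τ) + 1) / (M : ℝ) ^ (j + 1) := by
      field_simp
      ring
    rw [e, abs_div, abs_of_pos (show (0 : ℝ) < (M : ℝ) ^ (j + 1) by positivity),
      div_le_div_iff₀ (by positivity) hj]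
    have b : |(M : ℝ) * (⌊(M : ℝ) ^ j / τ⌋₊ - (M : ℝ) ^ j / τ) + 1| ≤ M := by
      rw [abs_le]
      constructor <;> nlinarith
    calc |(M : ℝ) * (⌊(M : ℝ) ^ j / τ⌋₊ - (M : ℝ) ^ j / τ) + 1| * (M : ℝ) ^ j
        ≤ M * (M : ℝ) ^ j := mul_le_mul_of_nonneg_right b hj.le
      _ = 1 * (M : ℝ) ^ (j + 1) := by ring
  have h2 := h1.inv₀ (by positivity)
  rw [one_div, inv_inv] at h2
  refine h2.congr fun j => ?_
  rw [inv_div]

theorem half_angle (θ : ℝ) (h0 : 0 ≤ θ) (h1 : θ < π) :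
    (1 - tan (θ / 2) ^ 2) / (1 + tan (θ / 2) ^ 2) = cos θ ∧
      2 * tan (θ / 2) / (1 + tan (θ / 2) ^ 2) = sin θ := by
  have hc : 0 < cos (θ / 2) := cos_pos_of_mem_Ioo ⟨by linarith [pi_pos], by linarith⟩
  have hs := sin_sq_add_cos_sq (θ / 2)
  have e : θ = 2 * (θ / 2) := by ring
  have h1 : 1 + tan (θ / 2) ^ 2 = 1 / cos (θ / 2) ^ 2 := by
    rw [tan_eq_sin_div_cos]
    field_simp
    linarith
  constructor
  · rw [h1]
    conv_rhs => rw [e, cos_two_mul]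
    rw [tan_eq_sin_div_cos]
    field_simp
    linarith
  · rw [h1]
    conv_rhs => rw [e, sin_two_mul]
    rw [tan_eq_sin_div_cos]
    field_simp

theorem step (D : ℕ) (hD : 1 ≤ D) (B : ℕ) (hB : 1 ≤ B) (hDB : D ∣ B) (K : ℕ) (θ : ℝ)
    (hθ : 0 ≤ θ) (hθ' : θ < π) (ε : ℝ) (hε : 0 < ε) :
    ∃ s t : ℤ, (K : ℤ) < s ^ 2 + D * t ^ 2 ∧ IsCoprime (s ^ 2 + D * t ^ 2) (B : ℤ) ∧
      IsCoprime (s ^ 2 + D * t ^ 2) s ∧ IsCoprime (s ^ 2 + D * t ^ 2) t ∧
      |((s : ℝ) ^ 2 - D * t ^ 2) / (s ^ 2 + D * t ^ 2) - cos θ| < ε ∧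
      |2 * √D * s * t / (s ^ 2 + D * t ^ 2) - sin θ| < ε := by
  have hDr : (1 : ℝ) ≤ D := by exact_mod_cast hD
  have hsD : 0 < √(D : ℝ) := Real.sqrt_pos.2 (by linarith)
  have hsq : √(D : ℝ) ^ 2 = D := Real.sq_sqrt (by linarith)
  obtain ⟨e1, e2⟩ := half_angle θ hθ hθ'
  have hT : 0 ≤ tan (θ / 2) := tan_nonneg_of_nonneg_of_le_pi_div_two (by linarith) (by linarith)
  set T := tan (θ / 2) with hTdef
  have cX : ContinuousAt (fun r : ℝ => (1 - D * r ^ 2) / (1 + D * r ^ 2)) (T / √D) := by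
    refine ContinuousAt.div (by fun_prop) (by fun_prop) ?_
    positivity
  have cY : ContinuousAt (fun r : ℝ => 2 * √D * r / (1 + D * r ^ 2)) (T / √D) := by
    refine ContinuousAt.div (by fun_prop) (by fun_prop) ?_
    positivity
  have vD : (D : ℝ) * (T / √D) ^ 2 = T ^ 2 := by
    rw [div_pow, hsq]
    field_simp
  have vX : (1 - D * (T / √D) ^ 2) / (1 + D * (T / √D) ^ 2) = cos θ := by
    rw [vD, e1]
  have vY : 2 * √D * (T / √D) / (1 + D * (T / √D) ^ 2) = sin θ := by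
    rw [vD, ← e2]
    field_simp
  rw [Metric.continuousAt_iff] at cX cY
  obtain ⟨δ1, hδ1, H1⟩ := cX ε hε
  obtain ⟨δ2, hδ2, H2⟩ := cY ε hε
  simp only [Real.dist_eq] at H1 H2
  rw [vX] at H1
  rw [vY] at H2
  set δ := min δ1 δ2 with hδ
  have hδ0 : 0 < δ := lt_min hδ1 hδ2
  have hτ : 0 < T / √D + δ / 2 := by positivity
  set M : ℕ := B * (K + 2) with hM
  have hM2 : 2 ≤ M := by
    rw [hM]
    nlinarith
  obtain ⟨j, hj⟩ := ((ratio_tendsto M hM2 _ hτ).eventually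
    (Metric.ball_mem_nhds _ (show (0 : ℝ) < δ / 2 by positivity))).exists
  rw [Real.dist_eq] at hj
  set g := ⌊(M : ℝ) ^ j / (T / √D + δ / 2)⌋₊ with hg
  refine ⟨(M : ℤ) * g + 1, (M : ℤ) ^ (j + 1), ?_, ?_, ?_, ?_, ?_⟩
  · have h1 : (1 : ℤ) ≤ D := by exact_mod_cast hD
    have h2 : (K : ℤ) < M := by
      have : K < M := by rw [hM]; nlinarith
      exact_mod_cast this
    have h3 : (M : ℤ) ≤ (M : ℤ) ^ (j + 1) := by
      have : (1 : ℤ) ≤ M := by exact_mod_cast (show 1 ≤ M by omega)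
      exact le_self_pow₀ this (by omega)
    have h4 : (1 : ℤ) ≤ (M : ℤ) ^ (j + 1) := by
      have : (1 : ℤ) ≤ M := by exact_mod_cast (show 1 ≤ M by omega)
      linarith
    nlinarith [sq_nonneg ((M : ℤ) * g + 1)]
  · refine ⟨1, -((K + 2 : ℤ) * ((M : ℤ) * g ^ 2 + 2 * g + D * M * ((M : ℤ) ^ j) ^ 2)), ?_⟩
    have hMB : (M : ℤ) = B * (K + 2) := by rw [hM]; push_cast; ring
    have : (M : ℤ) ^ (j + 1) = M * M ^ j := by ring
    rw [this]
    linear_combination ((M : ℤ) * g ^ 2 + 2 * g + D * M * ((M : ℤ) ^ j) ^ 2) * hMB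
  · have c1 : IsCoprime ((M : ℤ) * g + 1) (M : ℤ) := ⟨1, -g, by ring⟩
    have c2 : IsCoprime (D : ℤ) ((M : ℤ) * g + 1) := by
      refine (IsCoprime.of_isCoprime_of_dvd_right c1 ?_).symm
      have : (D : ℤ) ∣ B := by exact_mod_cast hDB
      rw [hM]
      push_cast
      exact Dvd.dvd.mul_right this _
    have c3 : IsCoprime (D * ((M : ℤ) ^ (j + 1)) ^ 2) ((M : ℤ) * g + 1) :=
      c2.mul_left ((c1.symm.pow_left).pow_left)
    have c4 := IsCoprime.add_mul_right_left c3 ((M : ℤ) * g + 1)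
    have e : ((M : ℤ) * g + 1) ^ 2 + D * ((M : ℤ) ^ (j + 1)) ^ 2 =
        D * ((M : ℤ) ^ (j + 1)) ^ 2 + ((M : ℤ) * g + 1) * ((M : ℤ) * g + 1) := by ring
    rw [e]
    exact c4
  · have c1 : IsCoprime ((M : ℤ) * g + 1) (M : ℤ) := ⟨1, -g, by ring⟩
    have c3 : IsCoprime (((M : ℤ) * g + 1) ^ 2) ((M : ℤ) ^ (j + 1)) := (c1.pow_right).pow_left
    have c4 := IsCoprime.add_mul_right_left c3 (D * (M : ℤ) ^ (j + 1))
    have e : ((M : ℤ) * g + 1) ^ 2 + D * ((M : ℤ) ^ (j + 1)) ^ 2 =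
        ((M : ℤ) * g + 1) ^ 2 + D * (M : ℤ) ^ (j + 1) * (M : ℤ) ^ (j + 1) := by ring
    rw [e]
    exact c4
  · have hs : (0 : ℝ) < (M : ℝ) * g + 1 := by positivity
    have hr : |(M : ℝ) ^ (j + 1) / ((M : ℝ) * g + 1) - T / √D| < δ := by
      have := abs_sub_lt_iff.1 hj
      rw [abs_sub_lt_iff]
      constructor <;> linarith [this.1, this.2]
    have h1 := H1 (hr.trans_le (min_le_left _ _))
    have h2 := H2 (hr.trans_le (min_le_right _ _))
    push_cast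
    constructor
    · convert h1 using 2
      congr 1
      field_simp
    · convert h2 using 2
      congr 1
      field_simp

theorem chain (D : ℕ) (hD : 1 ≤ D) (B : ℕ) (hB : 1 ≤ B) (hDB : D ∣ B) (K : ℕ) (θ : ℕ → ℝ)
    (hθ : ∀ i, 0 ≤ θ i) (hθ' : ∀ i, θ i < π) (ε : ℝ) (hε : 0 < ε) :
    ∃ s t : ℕ → ℤ, ∀ i, (K : ℤ) < s i ^ 2 + D * t i ^ 2 ∧
      IsCoprime (s i ^ 2 + D * t i ^ 2) (B : ℤ) ∧
      (∀ j < i, IsCoprime (s i ^ 2 + D * t i ^ 2) (s j ^ 2 + D * t j ^ 2)) ∧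
      IsCoprime (s i ^ 2 + D * t i ^ 2) (s i) ∧ IsCoprime (s i ^ 2 + D * t i ^ 2) (t i) ∧
      |((s i : ℝ) ^ 2 - D * t i ^ 2) / (s i ^ 2 + D * t i ^ 2) - cos (θ i)| < ε ∧
      |2 * √D * s i * t i / (s i ^ 2 + D * t i ^ 2) - sin (θ i)| < ε := by
  have h := fun (B' : ℕ) (i : ℕ) (h1 : 1 ≤ B') (h2 : D ∣ B') =>
    step D hD B' h1 h2 K (θ i) (hθ i) (hθ' i) ε hε
  choose! S T hST using h
  obtain ⟨st, st0, st_succ⟩ : ∃ st : ℕ → ℕ, st 0 = B ∧
      ∀ i, st (i + 1) = st i * (S (st i) i ^ 2 + (D : ℤ) * T (st i) i ^ 2).natAbs :=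
    ⟨fun i => Nat.rec B (fun i b => b * (S b i ^ 2 + (D : ℤ) * T b i ^ 2).natAbs) i, rfl,
      fun i => rfl⟩
  have inv : ∀ i, 1 ≤ st i ∧ D ∣ st i ∧ B ∣ st i := by
    intro i
    induction i with
    | zero => rw [st0]; exact ⟨hB, hDB, dvd_rfl⟩
    | succ i ih =>
      rw [st_succ]
      have := hST (st i) i ih.1 ih.2.1
      refine ⟨?_, ih.2.1.mul_right _, ih.2.2.mul_right _⟩
      have h0 : 0 < (S (st i) i ^ 2 + D * T (st i) i ^ 2).natAbs := by
        rw [Int.natAbs_pos]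
        have := this.1
        omega
      exact Nat.one_le_iff_ne_zero.2 (Nat.mul_ne_zero (by omega) (by omega))
  have div : ∀ j i : ℕ, j < i →
      (S (st j) j ^ 2 + (D : ℤ) * T (st j) j ^ 2) ∣ Nat.cast (R := ℤ) (st i) := by
    intro j i hji
    induction i with
    | zero => omega
    | succ i ih =>
      rw [st_succ]
      push_cast
      rcases Nat.lt_succ_iff_lt_or_eq.1 hji with h | h
      · exact (ih h).mul_right _
      · subst h
        refine Dvd.dvd.mul_left ?_ _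
        exact (dvd_abs _ _).2 dvd_rfl
  refine ⟨fun i => S (st i) i, fun i => T (st i) i, fun i => ?_⟩
  obtain ⟨a1, a2, a3, a4, a5, a6⟩ := hST (st i) i (inv i).1 (inv i).2.1
  refine ⟨a1, ?_, fun j hj => ?_, a3, a4, a5, a6⟩
  · exact IsCoprime.of_isCoprime_of_dvd_right a2 (by exact_mod_cast (inv i).2.2)
  · exact IsCoprime.of_isCoprime_of_dvd_right a2 (div j i hj)

theorem main_nt (D Q : ℕ) (hD : 1 ≤ D) (hQ : 1 ≤ Q) (n K : ℕ) (θ : ℕ → ℝ)
    (hθ : ∀ i, 0 ≤ θ i) (hθ' : ∀ i, θ i < π) (ε : ℝ) (hε : 0 < ε) :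
    ∃ (m l : Fin n → ℤ) (N : ℕ), 2 ^ n ≤ N ∧ (∀ i, 2 ∣ m i) ∧ (∀ i, 2 ∣ l i) ∧
      (∀ i, (Q : ℤ) ^ 2 * m i ^ 2 + D * l i ^ 2 = Q ^ 2 * N ^ 2) ∧
      (∀ i, |(m i : ℝ) / N - cos (θ i)| < ε) ∧
      (∀ i, |√D * l i / (Q * N) - sin (θ i)| < ε) ∧
      (∀ g : Fin n → ℤ, (∀ i, |g i| ≤ K) → ∑ i, g i * m i = 0 → ∀ i, g i = 0) ∧
      (∀ g : Fin n → ℤ, (∀ i, |g i| ≤ K) → ∑ i, g i * l i = 0 → ∀ i, g i = 0) := by
  classical
  obtain ⟨s, t, hst⟩ := chain D hD (2 * D * Q) (by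
    have : 0 < D * Q := Nat.mul_pos hD hQ
    nlinarith) ⟨2 * Q, by ring⟩ (K + 1) θ hθ hθ' ε hε
  set q : ℕ → ℤ := fun i => s i ^ 2 + D * t i ^ 2 with hq
  have hq2 : ∀ i, (K : ℤ) + 1 < q i := fun i => by exact_mod_cast (hst i).1
  have hqpos : ∀ i, 0 < q i := fun i => by have := hq2 i; omega
  have hB : ∀ i, IsCoprime (q i) (2 * D * Q : ℤ) := fun i => by
    have := (hst i).2.1
    push_cast at this
    exact this
  have h2 : ∀ i, IsCoprime (q i) 2 := fun i =>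
    IsCoprime.of_isCoprime_of_dvd_right (hB i) ⟨D * Q, by ring⟩
  have hcQ : ∀ i, IsCoprime (q i) Q := fun i =>
    IsCoprime.of_isCoprime_of_dvd_right (hB i) ⟨2 * D, by ring⟩
  have hpair : ∀ i j, i ≠ j → IsCoprime (q i) (q j) := by
    intro i j hij
    rcases lt_or_gt_of_ne hij with h | h
    · exact ((hst j).2.2.1 i h).symm
    · exact (hst i).2.2.1 j h
  have hcs : ∀ i, IsCoprime (q i) (s i) := fun i => (hst i).2.2.2.1
  have hct : ∀ i, IsCoprime (q i) (t i) := fun i => (hst i).2.2.2.2.1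
  have hca : ∀ i, IsCoprime (q i) (s i ^ 2 - D * t i ^ 2) := by
    intro i
    have h1 : IsCoprime (2 * s i ^ 2) (q i) := ((h2 i).mul_right ((hcs i).pow_right)).symm
    have h2 := IsCoprime.add_mul_right_left h1 (-1)
    have e : 2 * s i ^ 2 + -1 * q i = s i ^ 2 - D * t i ^ 2 := by
      simp only [hq]; ring
    rw [e] at h2
    exact h2.symm
  -- the products
  set P : Fin n → ℤ := fun i => ∏ j ∈ Finset.univ.erase i, q (j : ℕ) with hP
  have hPi : ∀ i : Fin n, IsCoprime (q (i : ℕ)) (P i) := by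
    intro i
    refine IsCoprime.prod_right fun j hj => ?_
    refine hpair _ _ fun h => ?_
    exact (Finset.ne_of_mem_erase hj) (Fin.ext h.symm)
  have hPj : ∀ i j : Fin n, j ≠ i → q (i : ℕ) ∣ P j := by
    intro i j hij
    exact Finset.dvd_prod_of_mem (fun j : Fin n => q (j : ℕ))
      (Finset.mem_erase.2 ⟨fun h => hij h.symm, Finset.mem_univ _⟩)
  have hPq : ∀ i : Fin n, q (i : ℕ) * P i = ∏ j : Fin n, q (j : ℕ) := by
    intro i
    exact Finset.mul_prod_erase Finset.univ (fun j : Fin n => q (j : ℕ)) (Finset.mem_univ i)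
  have hprodpos : 0 < ∏ j : Fin n, q (j : ℕ) := Finset.prod_pos fun j _ => hqpos j
  obtain ⟨N0, hN0⟩ := Int.eq_ofNat_of_zero_le hprodpos.le
  have hN0pos : 0 < N0 := by
    rw [hN0] at hprodpos
    exact_mod_cast hprodpos
  -- independence
  have indep : ∀ (v : Fin n → ℤ), (∀ i : Fin n, IsCoprime (q (i : ℕ)) (v i)) →
      ∀ g : Fin n → ℤ, (∀ i, |g i| ≤ K) → ∑ i, g i * (v i * P i) = 0 → ∀ i, g i = 0 := by
    intro v hv g hg hsum i
    have h1 : q (i : ℕ) ∣ g i * (v i * P i) := by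
      rw [← Finset.add_sum_erase Finset.univ _ (Finset.mem_univ i)] at hsum
      have h3 : q (i : ℕ) ∣ ∑ x ∈ Finset.univ.erase i, g x * (v x * P x) := by
        refine Finset.dvd_sum fun j hj => ?_
        exact ((hPj i j (Finset.ne_of_mem_erase hj)).mul_left _).mul_left _
      have h4 : g i * (v i * P i) = -∑ x ∈ Finset.univ.erase i, g x * (v x * P x) := by
        linarith
      rw [h4]
      exact h3.neg_right
    have h5 : q (i : ℕ) ∣ g i :=
      (((hv i).mul_right (hPi i))).dvd_of_dvd_mul_right h1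
    refine Int.eq_zero_of_abs_lt_dvd h5 ?_
    have := hg i
    have := hq2 i
    omega
  refine ⟨fun i => 2 * (s i ^ 2 - D * t i ^ 2) * P i, fun i => (4 * Q * (s i * t i)) * P i, 2 * N0,
    ?_, ?_, ?_, ?_, ?_, ?_, ?_, ?_⟩
  · have h1 : (2 : ℤ) ^ n ≤ ∏ j : Fin n, q (j : ℕ) := by
      have : (2 : ℤ) ^ n = ∏ _j : Fin n, (2 : ℤ) := by simp
      rw [this]
      refine Finset.prod_le_prod (fun _ _ => by norm_num) fun j _ => ?_
      have := hq2 j
      omega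
    rw [hN0] at h1
    have h2 : 2 ^ n ≤ N0 := by exact_mod_cast h1
    omega
  · intro i
    exact ⟨(s i ^ 2 - D * t i ^ 2) * P i, by ring⟩
  · intro i
    exact ⟨2 * Q * (s i * t i) * P i, by ring⟩
  · intro i
    have e : ((2 * N0 : ℕ) : ℤ) = 2 * (q i * P i) := by
      rw [hPq i, hN0]; push_cast; ring
    rw [e]
    simp only [hq]
    ring
  · intro i
    have h1 := (hst i).2.2.2.2.2.1
    have e : ((2 * N0 : ℕ) : ℝ) = 2 * ((q i : ℝ) * P i) := by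
      have : ((2 * N0 : ℕ) : ℤ) = 2 * (q i * P i) := by
        rw [hPq i, hN0]; push_cast; ring
      exact_mod_cast this
    have hP0 : (P i : ℝ) ≠ 0 := by
      intro h0
      have h3 : P i = 0 := by exact_mod_cast h0
      have h4 := hPq i
      rw [h3, mul_zero] at h4
      linarith
    have hq0 : ((s i : ℝ) ^ 2 + D * t i ^ 2) ≠ 0 := by
      have := hqpos i
      have h3 : (0 : ℝ) < ((q i : ℤ) : ℝ) := by exact_mod_cast this
      simp only [hq] at h3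
      push_cast at h3
      exact h3.ne'
    convert h1 using 3
    rw [e]
    simp only [hq]
    push_cast
    field_simp
  · intro i
    have h1 := (hst i).2.2.2.2.2.2
    have e : ((2 * N0 : ℕ) : ℝ) = 2 * ((q i : ℝ) * P i) := by
      have : ((2 * N0 : ℕ) : ℤ) = 2 * (q i * P i) := by
        rw [hPq i, hN0]; push_cast; ring
      exact_mod_cast this
    have hP0 : (P i : ℝ) ≠ 0 := by
      intro h0
      have h3 : P i = 0 := by exact_mod_cast h0
      have h4 := hPq i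
      rw [h3, mul_zero] at h4
      linarith
    have hq0 : ((s i : ℝ) ^ 2 + D * t i ^ 2) ≠ 0 := by
      have := hqpos i
      have h3 : (0 : ℝ) < ((q i : ℤ) : ℝ) := by exact_mod_cast this
      simp only [hq] at h3
      push_cast at h3
      exact h3.ne'
    have hQ0 : (Q : ℝ) ≠ 0 := by positivity
    convert h1 using 3
    rw [e]
    simp only [hq]
    push_cast
    field_simp
    ring
  · intro g hg hsum
    exact indep (fun i => 2 * (s i ^ 2 - D * t i ^ 2)) (fun i => (h2 i).mul_right (hca i)) g hg hsum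
  · intro g hg hsum
    refine indep (fun i => 4 * Q * (s i * t i)) (fun i => ?_) g hg hsum
    refine IsCoprime.mul_right (IsCoprime.mul_right ?_ (hcQ i)) ((hcs i).mul_right (hct i))
    have : (4 : ℤ) = 2 ^ 2 := by norm_num
    rw [this]
    exact (h2 i).pow_right

end Pool.Agent.Zk60.BW
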