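import Pool.Agent.Zk60.BW.Ind

/-!
# The sum, on the domain and in the independent model
-/

set_option autoImplicit false

open Filter Topology Real MeasureTheory Set

namespace Pool.Agent.Zk60.BW

variable {k n : ℕ}

/-- the sum -/
noncomputable def SM (w : Fin k → ℂ) (t : Fin k → ℝ) (φ : ℝ) (X Y : Fin n → ℝ)
    (x : Fin n → ℝ × ℝ) : ℝ := (2 / √n) * ∑ i, FF w t φ (X i) (Y i) (x i)

theorem continuous_SM (w : Fin k → ℂ) (t : Fin k → ℝ) (φ : ℝ) (X Y : Fin n → ℝ) :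
    Continuous (SM w t φ X Y) := by
  unfold SM
  refine continuous_const.mul (continuous_finsetSum _ fun i _ => ?_)
  exact (continuous_FF w t φ (X i) (Y i)).comp (continuous_apply i)

theorem abs_SM_le (w : Fin k → ℂ) (t : Fin k → ℝ) (φ : ℝ) (X Y : Fin n → ℝ) (x : Fin n → ℝ × ℝ) :
    |SM w t φ X Y x| ≤ (2 / √n) * (n * TT t) := by
  unfold SM
  rw [abs_mul, abs_of_nonneg (by positivity : 0 ≤ 2 / √(n : ℝ))]
  refine mul_le_mul_of_nonneg_left ?_ (by positivity)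
  refine (Finset.abs_sum_le_sum_abs _ _).trans ?_
  calc ∑ i : Fin n, |FF w t φ (X i) (Y i) (x i)| ≤ ∑ _i : Fin n, TT t :=
        Finset.sum_le_sum fun i _ => abs_FF_le w t φ (X i) (Y i) (x i)
    _ = n * TT t := by simp

theorem FF_mem (w : Fin k → ℂ) (t : Fin k → ℝ) (φ X Y : ℝ) (i : Fin n) :
    (fun x : Fin n → ℝ × ℝ => ((FF w t φ X Y (x i) : ℝ) : ℂ)) ∈ TP n 1 1 := by
  have h : ∀ j : Fin k, ((t j : ℝ) : ℂ) •
      ((fun x : Fin n → ℝ × ℝ => ((sin ((x i).1 + (X * (w j).re + φ)) : ℝ) : ℂ)) *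
        (fun x : Fin n → ℝ × ℝ => ((sin ((x i).2 + (Y * (w j).im + φ)) : ℝ) : ℂ))) ∈ TP n 1 1 := by
    intro j
    have h1 := TP_mul (TP_sin1 (n := n) i (X * (w j).re + φ)) (TP_sin2 (n := n) i (Y * (w j).im + φ))
    rw [add_zero, zero_add] at h1
    exact Submodule.smul_mem _ _ h1
  have h2 := Submodule.sum_mem (TP n 1 1) (fun j (_ : j ∈ Finset.univ) => h j)
  have e : (fun x : Fin n → ℝ × ℝ => ((FF w t φ X Y (x i) : ℝ) : ℂ)) = ∑ j, ((t j : ℝ) : ℂ) •
      ((fun x : Fin n → ℝ × ℝ => ((sin ((x i).1 + (X * (w j).re + φ)) : ℝ) : ℂ)) *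
        (fun x : Fin n → ℝ × ℝ => ((sin ((x i).2 + (Y * (w j).im + φ)) : ℝ) : ℂ))) := by
    funext x
    rw [Finset.sum_apply]
    unfold FF
    rw [Complex.ofReal_sum]
    refine Finset.sum_congr rfl fun j _ => ?_
    rw [Pi.smul_apply, Pi.mul_apply, smul_eq_mul, Complex.ofReal_mul, Complex.ofReal_mul]
  rw [e]
  exact h2

theorem SM_mem (w : Fin k → ℂ) (t : Fin k → ℝ) (φ : ℝ) (X Y : Fin n → ℝ) :
    (fun x => ((SM w t φ X Y x : ℝ) : ℂ)) ∈ TP n 1 1 := by
  have h2 := Submodule.smul_mem (TP n 1 1) ((2 / √n : ℝ) : ℂ)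
    (Submodule.sum_mem (TP n 1 1) (fun i (_ : i ∈ Finset.univ) => FF_mem w t φ (X i) (Y i) i))
  have e : (fun x => ((SM w t φ X Y x : ℝ) : ℂ)) = ((2 / √n : ℝ) : ℂ) • ∑ i,
      (fun x : Fin n → ℝ × ℝ => ((FF w t φ (X i) (Y i) (x i) : ℝ) : ℂ)) := by
    funext x
    rw [Pi.smul_apply, Finset.sum_apply, smul_eq_mul]
    unfold SM
    rw [Complex.ofReal_mul, Complex.ofReal_sum]
  rw [e]
  exact h2

theorem int_exp_SM (w : Fin k → ℂ) (t : Fin k → ℝ) (φ : ℝ) (X Y : Fin n → ℝ) (c : ℝ)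
    (hn : 0 < n) (hc : |c| = 2) (hT : 16 * TT t ^ 2 ≤ n) :
    ∫ x, Real.exp (c * SM w t φ X Y x) ∂(PP n) ≤ Real.exp (16 * TT t ^ 2) := by
  have hn0 : (0 : ℝ) < n := by exact_mod_cast hn
  have hs : 0 < √(n : ℝ) := Real.sqrt_pos.2 hn0
  have hs2 : √(n : ℝ) ^ 2 = n := Real.sq_sqrt hn0.le
  have e : ∀ x, Real.exp (c * SM w t φ X Y x) =
      ∏ i, Real.exp ((c * (2 / √n)) * FF w t φ (X i) (Y i) (x i)) := by
    intro x
    rw [← Real.exp_sum, ← Finset.mul_sum]
    unfold SM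
    rw [mul_assoc]
  simp only [e]
  unfold PP
  rw [integral_fintype_prod_eq_prod (μ := fun _ : Fin n => unif.prod unif)
    (fun (i : Fin n) (p : ℝ × ℝ) => Real.exp ((c * (2 / √n)) * FF w t φ (X i) (Y i) p))]
  have hρ : |c * (2 / √n)| = 4 / √n := by
    rw [abs_mul, hc, abs_of_pos (by positivity)]
    ring
  have hρT : |c * (2 / √n)| * TT t ≤ 1 := by
    rw [hρ, div_mul_eq_mul_div, div_le_one hs]
    refine Real.le_sqrt_of_sq_le ?_
    linarith [mul_pow 4 (TT t) 2]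
  have hρ2 : (c * (2 / √n)) ^ 2 = 16 / n := by
    rw [← sq_abs, hρ, div_pow, hs2]
    norm_num
  calc ∏ i, ∫ p, Real.exp ((c * (2 / √n)) * FF w t φ (X i) (Y i) p) ∂(unif.prod unif)
      ≤ ∏ _i : Fin n, Real.exp (16 / n * TT t ^ 2) := by
        refine Finset.prod_le_prod (fun i _ => integral_nonneg fun p => (Real.exp_pos _).le)
          fun i _ => ?_
        have := int_exp_FF w t φ (X i) (Y i) (c * (2 / √n)) hρT
        rwa [hρ2] at this
    _ = Real.exp (16 * TT t ^ 2) := by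
        rw [Finset.prod_const, ← Real.exp_nat_mul, Finset.card_univ, Fintype.card_fin]
        congr 1
        field_simp

theorem int_pow_SM (w : Fin k → ℂ) (t : Fin k → ℝ) (φ : ℝ) (X Y : Fin n → ℝ)
    (hn : 0 < n) (hT : 16 * TT t ^ 2 ≤ n) :
    ∫ x, SM w t φ X Y x ^ (2 * n) / ((2 * n).factorial : ℝ) ∂(PP n) ≤
      (1 / 4) ^ n * (2 * Real.exp (16 * TT t ^ 2)) := by
  have hc := continuous_SM w t φ X Y
  have hint : ∀ c : ℝ, Integrable (fun x => Real.exp (c * SM w t φ X Y x)) (PP n) := by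
    intro c
    refine Integrable.of_bound
      (Real.continuous_exp.comp (continuous_const.mul hc)).aestronglyMeasurable
      (Real.exp (|c| * ((2 / √n) * (n * TT t)))) (ae_of_all _ fun x => ?_)
    rw [Real.norm_eq_abs, abs_of_pos (Real.exp_pos _)]
    refine Real.exp_le_exp.2 ((le_abs_self _).trans ?_)
    rw [abs_mul]
    exact mul_le_mul_of_nonneg_left (abs_SM_le w t φ X Y x) (abs_nonneg _)
  have hpt : ∀ x, SM w t φ X Y x ^ (2 * n) / ((2 * n).factorial : ℝ) ≤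
      (1 / 4) ^ n * (Real.exp (2 * SM w t φ X Y x) + Real.exp (-2 * SM w t φ X Y x)) := by
    intro x
    set y := SM w t φ X Y x
    have h1 := pow_div_fact_le (2 * |y|) (by positivity) (2 * n)
    have h2 : Real.exp (2 * |y|) ≤ Real.exp (2 * y) + Real.exp (-2 * y) := by
      rcases abs_choice y with h | h <;> rw [h]
      · have := Real.exp_pos (-2 * y); linarith
      · have := Real.exp_pos (2 * y)
        have e : 2 * -y = -2 * y := by ring
        rw [e]; linarith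
    have h3 : (2 * |y|) ^ (2 * n) = 4 ^ n * y ^ (2 * n) := by
      rw [pow_mul, pow_mul, mul_pow, sq_abs, mul_pow]
      norm_num
    rw [h3] at h1
    have h4 : (4 : ℝ) ^ n * (1 / 4) ^ n = 1 := by
      rw [← mul_pow]; norm_num
    calc y ^ (2 * n) / ((2 * n).factorial : ℝ)
        = (1 / 4) ^ n * (4 ^ n * y ^ (2 * n) / ((2 * n).factorial : ℝ)) := by
          rw [mul_div_assoc, ← mul_assoc, mul_comm ((1 / 4 : ℝ) ^ n), h4, one_mul]
      _ ≤ _ := mul_le_mul_of_nonneg_left (h1.trans h2) (by positivity)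
  have hint2 : Integrable (fun x => SM w t φ X Y x ^ (2 * n) / ((2 * n).factorial : ℝ)) (PP n) := by
    refine Integrable.of_bound ((hc.pow _).div_const _).aestronglyMeasurable
      (((2 / √n) * (n * TT t)) ^ (2 * n) / ((2 * n).factorial : ℝ)) (ae_of_all _ fun x => ?_)
    rw [norm_div, norm_pow, Real.norm_eq_abs, Real.norm_eq_abs, abs_of_pos
      (show (0 : ℝ) < ((2 * n).factorial : ℝ) by positivity)]
    exact div_le_div_of_nonneg_right
      (pow_le_pow_left₀ (abs_nonneg _) (abs_SM_le w t φ X Y x) _) (by positivity)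
  calc ∫ x, SM w t φ X Y x ^ (2 * n) / ((2 * n).factorial : ℝ) ∂(PP n)
      ≤ ∫ x, (1 / 4) ^ n * (Real.exp (2 * SM w t φ X Y x) + Real.exp (-2 * SM w t φ X Y x)) ∂(PP n) :=
        integral_mono hint2 (((hint 2).add (hint (-2))).const_mul _) hpt
    _ = (1 / 4) ^ n * (∫ x, Real.exp (2 * SM w t φ X Y x) ∂(PP n) +
          ∫ x, Real.exp (-2 * SM w t φ X Y x) ∂(PP n)) := by
        rw [integral_const_mul, integral_add (hint 2) (hint (-2))]
    _ ≤ (1 / 4) ^ n * (2 * Real.exp (16 * TT t ^ 2)) := by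
        refine mul_le_mul_of_nonneg_left ?_ (by positivity)
        have h1 := int_exp_SM w t φ X Y 2 hn (by norm_num) hT
        have h2 := int_exp_SM w t φ X Y (-2) hn (by norm_num) hT
        linarith

theorem char_ind (w : Fin k → ℂ) (t : Fin k → ℝ) (φ : ℝ) (X Y : Fin n → ℝ)
    (hn : 0 < n) (hT : 2 * TT t ^ 2 ≤ n) :
    ‖∫ x, Complex.exp ((SM w t φ X Y x : ℝ) * Complex.I) ∂(PP n) -
      ((Real.exp (-((1 / n) * ∑ i, VV w t (X i) (Y i)) / 2) : ℝ) : ℂ)‖ ≤
      4 / 3 * TT t ^ 3 / √n + 4 * TT t ^ 4 / n := by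
  have hn0 : (0 : ℝ) < n := by exact_mod_cast hn
  have hs : 0 < √(n : ℝ) := Real.sqrt_pos.2 hn0
  have hs2 : √(n : ℝ) ^ 2 = n := Real.sq_sqrt hn0.le
  have e : ∀ x, Complex.exp ((SM w t φ X Y x : ℝ) * Complex.I) =
      ∏ i, Complex.exp (((2 / √n) * FF w t φ (X i) (Y i) (x i) : ℝ) * Complex.I) := by
    intro x
    rw [← Complex.exp_sum, ← Finset.sum_mul]
    congr 2
    unfold SM
    rw [Finset.mul_sum]
    push_cast
    rfl
  simp only [e]
  unfold PP
  rw [integral_fintype_prod_eq_prod (μ := fun _ : Fin n => unif.prod unif)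
    (fun (i : Fin n) (p : ℝ × ℝ) =>
      Complex.exp (((2 / √n) * FF w t φ (X i) (Y i) p : ℝ) * Complex.I))]
  have e2 : ((Real.exp (-((1 / n) * ∑ i, VV w t (X i) (Y i)) / 2) : ℝ) : ℂ) =
      ∏ i, ((Real.exp (-(VV w t (X i) (Y i) / (2 * n))) : ℝ) : ℂ) := by
    rw [← Complex.ofReal_prod, ← Real.exp_sum]
    congr 2
    rw [Finset.mul_sum, Finset.sum_neg_distrib, neg_div, Finset.sum_div]
    congr 1
    refine Finset.sum_congr rfl fun i _ => ?_
    field_simp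
  rw [e2]
  refine (norm_prod_sub_le _ _ _ (fun i => ?_) (fun i => ?_)).trans ?_
  · refine (norm_integral_le_of_norm_le_const (C := 1) (ae_of_all _ fun p => ?_)).trans (by simp)
    rw [Complex.norm_exp_ofReal_mul_I]
  · rw [Complex.norm_real, Real.norm_eq_abs, abs_of_pos (Real.exp_pos _)]
    refine Real.exp_le_one_iff.2 ?_
    have := (VV_le w t (X i) (Y i)).1
    have : 0 ≤ VV w t (X i) (Y i) / (2 * n) := by positivity
    linarith
  have hterm : ∀ i : Fin n, ‖∫ p, Complex.exp (((2 / √n) * FF w t φ (X i) (Y i) p : ℝ) * Complex.I)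
      ∂(unif.prod unif) - ((Real.exp (-(VV w t (X i) (Y i) / (2 * n))) : ℝ) : ℂ)‖ ≤
      4 / 3 * TT t ^ 3 / (n * √n) + 4 * TT t ^ 4 / n ^ 2 := by
    intro i
    have h1 := int_char_FF w t φ (X i) (Y i) (2 / √n)
    have h2 : (2 / √(n : ℝ)) ^ 2 * VV w t (X i) (Y i) / 8 = VV w t (X i) (Y i) / (2 * n) := by
      rw [div_pow, hs2]
      field_simp
      norm_num
      ring
    rw [h2] at h1
    have h3 : |2 / √(n : ℝ)| ^ 3 * TT t ^ 3 / 6 = 4 / 3 * TT t ^ 3 / (n * √n) := by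
      rw [abs_of_pos (by positivity), div_pow]
      have : √(n : ℝ) ^ 3 = n * √n := by rw [pow_succ, hs2]
      rw [this]
      field_simp
      norm_num
      ring
    rw [h3] at h1
    set y := VV w t (X i) (Y i) / (2 * n) with hy
    have hV := VV_le w t (X i) (Y i)
    have hy0 : 0 ≤ y := by rw [hy]; exact div_nonneg hV.1 (by positivity)
    have hy1 : y ≤ 2 * TT t ^ 2 / n := by
      rw [hy, div_le_div_iff₀ (by positivity) hn0]
      nlinarith [hV.2]
    have hy2 : y ≤ 1 := hy1.trans (by rw [div_le_one hn0]; exact hT)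
    have h4 : ‖((1 - y : ℝ) : ℂ) - ((Real.exp (-y) : ℝ) : ℂ)‖ ≤ 4 * TT t ^ 4 / n ^ 2 := by
      rw [← Complex.ofReal_sub, Complex.norm_real, Real.norm_eq_abs]
      have h5 := Real.abs_exp_sub_one_sub_id_le (x := -y) (by rw [abs_neg, abs_of_nonneg hy0]; exact hy2)
      have h6 : (1 - y) - Real.exp (-y) = -(Real.exp (-y) - 1 - -y) := by ring
      rw [h6, abs_neg]
      refine h5.trans ?_
      rw [neg_sq]
      calc y ^ 2 ≤ (2 * TT t ^ 2 / n) ^ 2 := pow_le_pow_left₀ hy0 hy1 2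
        _ = 4 * TT t ^ 4 / n ^ 2 := by ring
    calc ‖∫ p, Complex.exp (((2 / √n) * FF w t φ (X i) (Y i) p : ℝ) * Complex.I)
          ∂(unif.prod unif) - ((Real.exp (-y) : ℝ) : ℂ)‖
        = ‖(∫ p, Complex.exp (((2 / √n) * FF w t φ (X i) (Y i) p : ℝ) * Complex.I)
          ∂(unif.prod unif) - ((1 - y : ℝ) : ℂ)) + (((1 - y : ℝ) : ℂ) - ((Real.exp (-y) : ℝ) : ℂ))‖ := by
          congr 1; ring
      _ ≤ _ := (norm_add_le _ _).trans (add_le_add h1 h4)
  refine (Finset.sum_le_sum fun i _ => hterm i).trans (le_of_eq ?_)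
  rw [Finset.sum_const, Finset.card_univ, Fintype.card_fin, nsmul_eq_mul]
  field_simp

theorem tri (A B C : ℂ) (v δ : ℝ) (hv : 0 ≤ v) (h1 : ‖A - (v : ℂ) * C‖ ≤ v * δ)
    (h2 : ‖B - C‖ ≤ δ) : ‖A - (v : ℂ) * B‖ ≤ v * (2 * δ) := by
  have e3 : A - (v : ℂ) * B = (A - (v : ℂ) * C) - (v : ℂ) * (B - C) := by ring
  rw [e3]
  refine (norm_sub_le _ _).trans ?_
  have h3 : ‖(v : ℂ) * (B - C)‖ ≤ v * δ := by
    rw [norm_mul, Complex.norm_real, Real.norm_eq_abs, abs_of_nonneg hv]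
    exact mul_le_mul_of_nonneg_left h2 hv
  linarith

/-- comparison of the domain with the independent model -/
theorem compare (a b : ℝ) (ha : 0 < a) (hb : 0 < b) (m l : Fin n → ℤ) (K : ℕ)
    (hm : ∀ g : Fin n → ℤ, (∀ i, |g i| ≤ K) → ∑ i, g i * m i = 0 → ∀ i, g i = 0)
    (hl : ∀ g : Fin n → ℤ, (∀ i, |g i| ≤ K) → ∑ i, g i * l i = 0 → ∀ i, g i = 0)
    (Ω : Set ℂ) (hΩ : IsOpen Ω) (hbd : Bornology.IsBounded Ω)
    (hf : frontier Ω ⊆ Grid a b) (w : Fin k → ℂ) (t : Fin k → ℝ) (φ : ℝ) (X Y : Fin n → ℝ)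
    (hn : 0 < n) (hK : 2 * n ≤ K) (hT : 16 * TT t ^ 2 ≤ n) :
    ‖(∫ z in Ω, Complex.exp ((SM w t φ X Y (Ph a b m l z) : ℝ) * Complex.I)) -
      (volume.real Ω : ℂ) * ∫ x, Complex.exp ((SM w t φ X Y x : ℝ) * Complex.I) ∂(PP n)‖ ≤
      volume.real Ω * (4 * ((1 / 4) ^ n * Real.exp (16 * TT t ^ 2))) := by
  have hcS := continuous_SM w t φ X Y
  have hcP := continuous_Ph a b m l
  have hmem := SM_mem w t φ X Y
  -- the Taylor polynomial
  set q : (Fin n → ℝ × ℝ) → ℂ := fun x => tay (2 * n) (SM w t φ X Y x) with hq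
  have hqmem : q ∈ TP n K K := by
    have e : q = ∑ j ∈ Finset.range (2 * n), (Complex.I ^ j / (j.factorial : ℂ)) •
        (fun x => ((SM w t φ X Y x : ℝ) : ℂ)) ^ j := by
      funext x
      simp only [hq, tay, Finset.sum_apply, Pi.smul_apply, Pi.pow_apply, smul_eq_mul]
      refine Finset.sum_congr rfl fun j _ => ?_
      rw [mul_pow]
      ring
    rw [e]
    refine Submodule.sum_mem _ fun j hj => Submodule.smul_mem _ _ ?_
    have hj' : j * 1 ≤ K := by
      have := Finset.mem_range.1 hj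
      omega
    exact TP_mono hj' hj' (TP_pow hmem j)
  set r : (Fin n → ℝ × ℝ) → ℂ := fun x =>
    (((SM w t φ X Y x ^ (2 * n) / ((2 * n).factorial : ℝ) : ℝ)) : ℂ) with hr
  have hrmem : r ∈ TP n K K := by
    have e : r = ((1 / ((2 * n).factorial : ℝ) : ℝ) : ℂ) •
        (fun x => ((SM w t φ X Y x : ℝ) : ℂ)) ^ (2 * n) := by
      funext x
      simp only [hr, Pi.smul_apply, Pi.pow_apply, smul_eq_mul]
      push_cast
      ring
    rw [e]
    refine Submodule.smul_mem _ _ ?_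
    exact TP_mono (by omega) (by omega) (TP_pow hmem (2 * n))
  obtain ⟨cq, ⟨Cq, bq⟩, eq⟩ := transfer a b ha hb m l K hm hl Ω hΩ hbd hf q hqmem
  obtain ⟨cr, ⟨Cr, br⟩, er⟩ := transfer a b ha hb m l K hm hl Ω hΩ hbd hf r hrmem
  have cE : Continuous fun x => Complex.exp ((SM w t φ X Y x : ℝ) * Complex.I) :=
    Complex.continuous_exp.comp ((Complex.continuous_ofReal.comp hcS).mul continuous_const)
  have bE : ∀ x, ‖Complex.exp ((SM w t φ X Y x : ℝ) * Complex.I)‖ ≤ 1 := fun x => by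
    rw [Complex.norm_exp_ofReal_mul_I]
  have iE1 : IntegrableOn (fun z => Complex.exp ((SM w t φ X Y (Ph a b m l z) : ℝ) * Complex.I)) Ω :=
    integrableOn_of_bdd hbd.measure_lt_top (cE.comp hcP).aestronglyMeasurable 1 fun z => bE _
  have iE2 : Integrable (fun x => Complex.exp ((SM w t φ X Y x : ℝ) * Complex.I)) (PP n) :=
    Integrable.of_bound cE.aestronglyMeasurable 1 (ae_of_all _ bE)
  have iq1 : IntegrableOn (fun z => q (Ph a b m l z)) Ω :=
    integrableOn_of_bdd hbd.measure_lt_top (cq.comp hcP).aestronglyMeasurable Cq fun z => bq _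
  have iq2 : Integrable q (PP n) := Integrable.of_bound cq.aestronglyMeasurable Cq (ae_of_all _ bq)
  have hrr : ∀ x, ‖Complex.exp ((SM w t φ X Y x : ℝ) * Complex.I) - q x‖ ≤
      SM w t φ X Y x ^ (2 * n) / ((2 * n).factorial : ℝ) := by
    intro x
    have := rem_bound (2 * n) (SM w t φ X Y x)
    rwa [pow_mul |SM w t φ X Y x|, sq_abs, ← pow_mul] at this
  have rR : ∀ x, r x = ((SM w t φ X Y x ^ (2 * n) / ((2 * n).factorial : ℝ) : ℝ) : ℂ) := fun x => rfl
  have cR : Continuous fun x => SM w t φ X Y x ^ (2 * n) / ((2 * n).factorial : ℝ) :=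
    (hcS.pow _).div_const _
  have bR : ∀ x, ‖SM w t φ X Y x ^ (2 * n) / ((2 * n).factorial : ℝ)‖ ≤ Cr := by
    intro x
    have := br x
    rw [rR, Complex.norm_real] at this
    exact this
  have iR1 : IntegrableOn (fun z => SM w t φ X Y (Ph a b m l z) ^ (2 * n) /
      ((2 * n).factorial : ℝ)) Ω :=
    Measure.integrableOn_of_bounded (M := Cr) hbd.measure_lt_top.ne
      (cR.comp hcP).aestronglyMeasurable (ae_of_all _ fun z => bR _)
  have iR2 : Integrable (fun x => SM w t φ X Y x ^ (2 * n) / ((2 * n).factorial : ℝ)) (PP n) :=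
    Integrable.of_bound cR.aestronglyMeasurable Cr (ae_of_all _ bR)
  have eR : ∫ z in Ω, SM w t φ X Y (Ph a b m l z) ^ (2 * n) / ((2 * n).factorial : ℝ) =
      volume.real Ω * ∫ x, SM w t φ X Y x ^ (2 * n) / ((2 * n).factorial : ℝ) ∂(PP n) := by
    simp only [rR] at er
    rw [integral_complex_ofReal, integral_complex_ofReal] at er
    exact_mod_cast er
  have hpow := int_pow_SM w t φ X Y hn hT
  -- the two remainders
  have h1 : ‖∫ z in Ω, (Complex.exp ((SM w t φ X Y (Ph a b m l z) : ℝ) * Complex.I) -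
      q (Ph a b m l z))‖ ≤ volume.real Ω * ((1 / 4) ^ n * (2 * Real.exp (16 * TT t ^ 2))) := by
    refine (norm_integral_le_of_norm_le iR1 (ae_of_all _ fun z => hrr _)).trans ?_
    rw [eR]
    exact mul_le_mul_of_nonneg_left hpow measureReal_nonneg
  have h2 : ‖∫ x, (Complex.exp ((SM w t φ X Y x : ℝ) * Complex.I) - q x) ∂(PP n)‖ ≤
      (1 / 4) ^ n * (2 * Real.exp (16 * TT t ^ 2)) :=
    (norm_integral_le_of_norm_le iR2 (ae_of_all _ hrr)).trans hpow
  rw [integral_sub iE1 iq1, eq] at h1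
  rw [integral_sub iE2 iq2] at h2
  have h3 := tri _ _ _ _ _ measureReal_nonneg h1 h2
  refine h3.trans (le_of_eq ?_)
  ring

end Pool.Agent.Zk60.BW
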