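import Pool.Agent.Zk60.BW.Cell

/-!
# Trigonometric polynomials of many independent phases
-/

set_option autoImplicit false

open Filter Topology Real MeasureTheory Set

namespace Pool.Agent.Zk60.BW

/-- the uniform law of a phase -/
noncomputable def unif : Measure ℝ :=
  ENNReal.ofReal (1 / (2 * π)) • volume.restrict (Ioc 0 (2 * π))

instance : IsProbabilityMeasure unif := by
  constructor
  unfold unif
  rw [Measure.smul_apply, Measure.restrict_apply_univ, Real.volume_Ioc, sub_zero, smul_eq_mul,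
    ← ENNReal.ofReal_mul (by positivity)]
  rw [one_div, inv_mul_cancel₀ (by positivity), ENNReal.ofReal_one]

theorem integral_unif {E : Type*} [NormedAddCommGroup E] [NormedSpace ℝ E] (f : ℝ → E) :
    ∫ x, f x ∂unif = (1 / (2 * π)) • ∫ x in (0 : ℝ)..(2 * π), f x := by
  unfold unif
  rw [integral_smul_measure, ENNReal.toReal_ofReal (by positivity),
    intervalIntegral.integral_of_le (by positivity)]

theorem int_osc_unif (g : ℤ) : ∫ x, osc (2 * π) g x ∂unif = if g = 0 then 1 else 0 := by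
  split_ifs with h
  · have : ∀ x, osc (2 * π) g x = 1 := by
      intro x
      simp [osc, h]
    simp [this]
  · rw [integral_unif]
    have h1 := int_osc (2 * π) (by positivity) g h 0
    rw [← intervalIntegral.integral_of_le (by push_cast; nlinarith [pi_pos])] at h1
    simp only [Int.cast_zero, zero_mul, zero_add, Int.cast_one, one_mul] at h1
    rw [h1, smul_zero]

/-- the law of `n` independent pairs of independent phases -/
noncomputable def PP (n : ℕ) : Measure (Fin n → ℝ × ℝ) := Measure.pi fun _ => unif.prod unif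

instance (n : ℕ) : IsProbabilityMeasure (PP n) := by unfold PP; infer_instance

variable {n : ℕ}

/-- exponentials -/
noncomputable def ee (g h : Fin n → ℤ) (x : Fin n → ℝ × ℝ) : ℂ :=
  ∏ i, (osc (2 * π) (g i) (x i).1 * osc (2 * π) (h i) (x i).2)

theorem osc_add (a : ℝ) (A B : ℤ) (x : ℝ) : osc a (A + B) x = osc a A x * osc a B x := by
  unfold osc
  rw [← Complex.exp_add]
  congr 1
  push_cast
  ring

theorem osc_zero (a : ℝ) (x : ℝ) : osc a 0 x = 1 := by simp [osc]

theorem ee_mul (g h g' h' : Fin n → ℤ) : ee g h * ee g' h' = ee (g + g') (h + h') := by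
  funext x
  simp only [Pi.mul_apply, ee, ← Finset.prod_mul_distrib, Pi.add_apply, osc_add]
  refine Finset.prod_congr rfl fun i _ => ?_
  ring

/-- trigonometric polynomials -/
def TP (n k l : ℕ) : Submodule ℂ ((Fin n → ℝ × ℝ) → ℂ) :=
  Submodule.span ℂ {f | ∃ g h : Fin n → ℤ, (∀ i, |g i| ≤ k) ∧ (∀ i, |h i| ≤ l) ∧ f = ee g h}

theorem TP_mul {k l k' l' : ℕ} {f f' : (Fin n → ℝ × ℝ) → ℂ} (hf : f ∈ TP n k l)
    (hf' : f' ∈ TP n k' l') : f * f' ∈ TP n (k + k') (l + l') := by
  unfold TP at hf hf'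
  refine Submodule.span_induction₂ (p := fun a b _ _ => a * b ∈ TP n (k + k') (l + l'))
    ?_ ?_ ?_ ?_ ?_ ?_ ?_ hf hf'
  · rintro _ _ ⟨g, h, hg, hh, rfl⟩ ⟨g', h', hg', hh', rfl⟩
    rw [ee_mul]
    refine Submodule.subset_span ⟨g + g', h + h', fun i => ?_, fun i => ?_, rfl⟩
    · rw [Pi.add_apply]
      push_cast
      exact (abs_add_le _ _).trans (add_le_add (hg i) (hg' i))
    · rw [Pi.add_apply]
      push_cast
      exact (abs_add_le _ _).trans (add_le_add (hh i) (hh' i))
  · intro y _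
    rw [zero_mul]; exact Submodule.zero_mem _
  · intro y _
    rw [mul_zero]; exact Submodule.zero_mem _
  · intro x y z _ _ _ h1 h2
    rw [add_mul]; exact Submodule.add_mem _ h1 h2
  · intro x y z _ _ _ h1 h2
    rw [mul_add]; exact Submodule.add_mem _ h1 h2
  · intro r x y _ _ h
    rw [smul_mul_assoc]; exact Submodule.smul_mem _ _ h
  · intro r x y _ _ h
    rw [mul_smul_comm]; exact Submodule.smul_mem _ _ h

theorem TP_mono {k l k' l' : ℕ} (hk : k ≤ k') (hl : l ≤ l') : TP n k l ≤ TP n k' l' := by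
  refine Submodule.span_mono ?_
  rintro _ ⟨g, h, hg, hh, rfl⟩
  exact ⟨g, h, fun i => (hg i).trans (by exact_mod_cast hk),
    fun i => (hh i).trans (by exact_mod_cast hl), rfl⟩

theorem TP_one (k l : ℕ) : (1 : (Fin n → ℝ × ℝ) → ℂ) ∈ TP n k l := by
  refine Submodule.subset_span ⟨0, 0, fun i => by simp, fun i => by simp, ?_⟩
  funext x
  simp [ee, osc_zero]

theorem TP_pow {k l : ℕ} {f : (Fin n → ℝ × ℝ) → ℂ} (hf : f ∈ TP n k l) (r : ℕ) :
    f ^ r ∈ TP n (r * k) (r * l) := by
  induction r with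
  | zero => rw [pow_zero]; exact TP_one _ _
  | succ r ih =>
    rw [pow_succ, add_mul, add_mul, one_mul, one_mul]
    exact TP_mul ih hf

theorem ee_single1 (i : Fin n) (c : ℤ) (x : Fin n → ℝ × ℝ) :
    ee (Pi.single i c) 0 x = osc (2 * π) c (x i).1 := by
  unfold ee
  rw [Finset.prod_eq_single i]
  · simp [osc_zero]
  · intro j _ hj
    simp [hj, osc_zero]
  · intro h; exact absurd (Finset.mem_univ i) h

theorem ee_single2 (i : Fin n) (c : ℤ) (x : Fin n → ℝ × ℝ) :
    ee 0 (Pi.single i c) x = osc (2 * π) c (x i).2 := by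
  unfold ee
  rw [Finset.prod_eq_single i]
  · simp [osc_zero]
  · intro j _ hj
    simp [hj, osc_zero]
  · intro h; exact absurd (Finset.mem_univ i) h

theorem osc_two_pi (c : ℤ) (y : ℝ) : osc (2 * π) c y = Complex.exp (c * y * Complex.I) := by
  unfold osc
  congr 1
  have : (2 * π * (c : ℝ) / (2 * π) : ℝ) = c := by
    field_simp
  rw [this]
  push_cast
  ring

theorem sin_eq_osc (y A : ℝ) : ((sin (y + A) : ℝ) : ℂ) =
    (Complex.exp (A * Complex.I) / (2 * Complex.I)) * osc (2 * π) 1 y +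
      (-Complex.exp (-(A * Complex.I)) / (2 * Complex.I)) * osc (2 * π) (-1) y := by
  rw [osc_two_pi, osc_two_pi, Complex.ofReal_sin, Complex.sin]
  have h1 : Complex.exp (-((y + A : ℝ) : ℂ) * Complex.I) =
      Complex.exp (-(A * Complex.I)) * Complex.exp (((-1 : ℤ) : ℂ) * y * Complex.I) := by
    rw [← Complex.exp_add]
    congr 1
    push_cast
    ring
  have h2 : Complex.exp (((y + A : ℝ) : ℂ) * Complex.I) =
      Complex.exp (A * Complex.I) * Complex.exp (((1 : ℤ) : ℂ) * y * Complex.I) := by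
    rw [← Complex.exp_add]
    congr 1
    push_cast
    ring
  rw [h1, h2]
  have h3 : (Complex.I : ℂ) ≠ 0 := Complex.I_ne_zero
  have h4 : Complex.I ^ 2 = -1 := Complex.I_sq
  generalize Complex.exp (((-1 : ℤ) : ℂ) * y * Complex.I) = E1
  generalize Complex.exp (((1 : ℤ) : ℂ) * y * Complex.I) = E2
  generalize Complex.exp (-(A * Complex.I)) = E3
  generalize Complex.exp (A * Complex.I) = E4
  field_simp
  linear_combination (E3 * E1 - E4 * E2) * h4

theorem TP_sin1 (i : Fin n) (A : ℝ) :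
    (fun x : Fin n → ℝ × ℝ => ((sin ((x i).1 + A) : ℝ) : ℂ)) ∈ TP n 1 0 := by
  have e : (fun x : Fin n → ℝ × ℝ => ((sin ((x i).1 + A) : ℝ) : ℂ)) =
      (Complex.exp (A * Complex.I) / (2 * Complex.I)) • ee (Pi.single i 1) 0 +
      (-Complex.exp (-(A * Complex.I)) / (2 * Complex.I)) • ee (Pi.single i (-1)) 0 := by
    funext x
    rw [Pi.add_apply, Pi.smul_apply, Pi.smul_apply, ee_single1, ee_single1, smul_eq_mul, smul_eq_mul,
      sin_eq_osc]
  rw [e]
  refine Submodule.add_mem _ (Submodule.smul_mem _ _ ?_) (Submodule.smul_mem _ _ ?_)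
  · refine Submodule.subset_span ⟨_, _, fun j => ?_, fun j => by simp, rfl⟩
    by_cases h : j = i
    · subst h; simp
    · simp [h]
  · refine Submodule.subset_span ⟨_, _, fun j => ?_, fun j => by simp, rfl⟩
    by_cases h : j = i
    · subst h; simp
    · simp [h]

theorem TP_sin2 (i : Fin n) (A : ℝ) :
    (fun x : Fin n → ℝ × ℝ => ((sin ((x i).2 + A) : ℝ) : ℂ)) ∈ TP n 0 1 := by
  have e : (fun x : Fin n → ℝ × ℝ => ((sin ((x i).2 + A) : ℝ) : ℂ)) =
      (Complex.exp (A * Complex.I) / (2 * Complex.I)) • ee 0 (Pi.single i 1) +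
      (-Complex.exp (-(A * Complex.I)) / (2 * Complex.I)) • ee 0 (Pi.single i (-1)) := by
    funext x
    rw [Pi.add_apply, Pi.smul_apply, Pi.smul_apply, ee_single2, ee_single2, smul_eq_mul, smul_eq_mul,
      sin_eq_osc]
  rw [e]
  refine Submodule.add_mem _ (Submodule.smul_mem _ _ ?_) (Submodule.smul_mem _ _ ?_)
  · refine Submodule.subset_span ⟨_, _, fun j => by simp, fun j => ?_, rfl⟩
    by_cases h : j = i
    · subst h; simp
    · simp [h]
  · refine Submodule.subset_span ⟨_, _, fun j => by simp, fun j => ?_, rfl⟩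
    by_cases h : j = i
    · subst h; simp
    · simp [h]

theorem continuous_ee (g h : Fin n → ℤ) : Continuous (ee g h) := by
  unfold ee
  refine continuous_finsetProd _ fun i _ => ?_
  exact ((continuous_osc _ _).comp (continuous_fst.comp (continuous_apply i))).mul
    ((continuous_osc _ _).comp (continuous_snd.comp (continuous_apply i)))

theorem norm_ee (g h : Fin n → ℤ) (x : Fin n → ℝ × ℝ) : ‖ee g h x‖ = 1 := by
  unfold ee
  rw [norm_prod]
  refine Finset.prod_eq_one fun i _ => ?_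
  rw [norm_mul, norm_osc, norm_osc, one_mul]

theorem int_ee (g h : Fin n → ℤ) : ∫ x, ee g h x ∂(PP n) =
    ∏ i, ((if g i = 0 then (1 : ℂ) else 0) * (if h i = 0 then 1 else 0)) := by
  unfold ee PP
  rw [integral_fintype_prod_eq_prod (μ := fun _ : Fin n => unif.prod unif)
    (fun (i : Fin n) (x : ℝ × ℝ) => osc (2 * π) (g i) x.1 * osc (2 * π) (h i) x.2)]
  refine Finset.prod_congr rfl fun i _ => ?_
  rw [integral_prod_mul (μ := unif) (ν := unif) (osc (2 * π) (g i)) (osc (2 * π) (h i)),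
    int_osc_unif, int_osc_unif]

/-- the phases at a point of the plane -/
noncomputable def Ph (a b : ℝ) (m l : Fin n → ℤ) (z : ℂ) : Fin n → ℝ × ℝ :=
  fun i => (2 * π * m i * z.re / a, 2 * π * l i * z.im / b)

theorem ee_Ph (a b : ℝ) (m l g h : Fin n → ℤ) (z : ℂ) :
    ee g h (Ph a b m l z) = osc2 a b (∑ i, g i * m i) (∑ i, h i * l i) z := by
  have key : ∀ (a : ℝ) (g m : Fin n → ℤ) (x : ℝ), ∏ i, osc (2 * π) (g i) (2 * π * m i * x / a) =
      osc a (∑ i, g i * m i) x := by
    intro a g m x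
    have : ∀ i, osc (2 * π) (g i) (2 * π * m i * x / a) =
        Complex.exp ((2 * π * (g i * m i : ℤ) / a : ℝ) * x * Complex.I) := by
      intro i
      rw [osc_two_pi]
      congr 1
      push_cast
      ring
    simp only [this]
    rw [← Complex.exp_sum]
    unfold osc
    congr 1
    rw [← Finset.sum_mul, ← Finset.sum_mul]
    congr 2
    push_cast
    rw [Finset.mul_sum, Finset.sum_div]
  unfold ee osc2 Ph
  rw [Finset.prod_mul_distrib, key, key]

theorem continuous_Ph (a b : ℝ) (m l : Fin n → ℤ) : Continuous (Ph a b m l) := by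
  unfold Ph
  refine continuous_pi fun i => ?_
  have h1 := Complex.continuous_re
  have h2 := Complex.continuous_im
  exact ((continuous_const.mul h1).div_const _).prodMk ((continuous_const.mul h2).div_const _)

/-- **Transfer.** -/
theorem transfer (a b : ℝ) (ha : 0 < a) (hb : 0 < b) (m l : Fin n → ℤ) (K : ℕ)
    (hm : ∀ g : Fin n → ℤ, (∀ i, |g i| ≤ K) → ∑ i, g i * m i = 0 → ∀ i, g i = 0)
    (hl : ∀ g : Fin n → ℤ, (∀ i, |g i| ≤ K) → ∑ i, g i * l i = 0 → ∀ i, g i = 0)
    (Ω : Set ℂ) (hΩ : IsOpen Ω) (hbd : Bornology.IsBounded Ω)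
    (hf : frontier Ω ⊆ Grid a b) (f : (Fin n → ℝ × ℝ) → ℂ) (hfK : f ∈ TP n K K) :
    Continuous f ∧ (∃ C, ∀ x, ‖f x‖ ≤ C) ∧
    ∫ z in Ω, f (Ph a b m l z) = (volume.real Ω : ℂ) * ∫ x, f x ∂(PP n) := by
  have hint : ∀ f : (Fin n → ℝ × ℝ) → ℂ, Continuous f → (∃ C, ∀ x, ‖f x‖ ≤ C) →
      IntegrableOn (fun z => f (Ph a b m l z)) Ω ∧ Integrable f (PP n) := by
    rintro f hc ⟨C, hC⟩
    refine ⟨integrableOn_of_bdd hbd.measure_lt_top
      (hc.comp (continuous_Ph a b m l)).aestronglyMeasurable C fun z => hC _, ?_⟩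
    exact Integrable.of_bound hc.aestronglyMeasurable C (ae_of_all _ hC)
  unfold TP at hfK
  refine Submodule.span_induction (p := fun f _ => Continuous f ∧ (∃ C, ∀ x, ‖f x‖ ≤ C) ∧
    ∫ z in Ω, f (Ph a b m l z) = (volume.real Ω : ℂ) * ∫ x, f x ∂(PP n)) ?_ ?_ ?_ ?_ hfK
  · rintro _ ⟨g, h, hg, hh, rfl⟩
    refine ⟨continuous_ee g h, ⟨1, fun x => (norm_ee g h x).le⟩, ?_⟩
    simp only [ee_Ph, int_ee]
    by_cases h0 : (∀ i, g i = 0) ∧ ∀ i, h i = 0
    · have e1 : ∀ z, osc2 a b (∑ i, g i * m i) (∑ i, h i * l i) z = 1 := by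
        intro z
        simp [h0.1, h0.2, osc2, osc_zero]
      simp only [e1]
      simp [h0.1, h0.2]
    · rw [int_open2 a b ha hb _ _ ?_ Ω hΩ hbd hf]
      · symm
        rw [mul_eq_zero]
        right
        rw [not_and_or] at h0
        rcases h0 with h0 | h0
        · rw [not_forall] at h0
          obtain ⟨i, hi⟩ := h0
          refine Finset.prod_eq_zero (Finset.mem_univ i) ?_
          rw [if_neg hi, zero_mul]
        · rw [not_forall] at h0
          obtain ⟨i, hi⟩ := h0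
          refine Finset.prod_eq_zero (Finset.mem_univ i) ?_
          rw [if_neg hi, mul_zero]
      · rintro ⟨h1, h2⟩
        exact h0 ⟨hm g hg h1, hl h hh h2⟩
  · refine ⟨continuous_const, ⟨0, fun x => by simp⟩, by simp⟩
  · rintro f1 f2 _ _ ⟨c1, ⟨C1, b1⟩, e1⟩ ⟨c2, ⟨C2, b2⟩, e2⟩
    refine ⟨c1.add c2, ⟨C1 + C2, fun x => (norm_add_le _ _).trans (add_le_add (b1 x) (b2 x))⟩, ?_⟩
    obtain ⟨i1, j1⟩ := hint f1 c1 ⟨C1, b1⟩
    obtain ⟨i2, j2⟩ := hint f2 c2 ⟨C2, b2⟩
    simp only [Pi.add_apply]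
    rw [integral_add i1 i2, integral_add j1 j2, e1, e2, mul_add]
  · rintro r f1 _ ⟨c1, ⟨C1, b1⟩, e1⟩
    refine ⟨continuous_const.mul c1, ⟨‖r‖ * C1, fun x => ?_⟩, ?_⟩
    · rw [Pi.smul_apply, smul_eq_mul, norm_mul]
      exact mul_le_mul_of_nonneg_left (b1 x) (norm_nonneg _)
    · simp only [Pi.smul_apply, smul_eq_mul]
      rw [integral_const_mul, integral_const_mul, e1]
      ring

end Pool.Agent.Zk60.BW
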