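import Pool.Agent.Zk60.BW.Sum
import Pool.Agent.Zk60.BW.NT
import Pool.Agent.Zk60.BW.Ave

/-!
# The eigenfunctions
-/

set_option autoImplicit false

open Filter Topology Real MeasureTheory Set
open scoped ContDiff

namespace Pool.Agent.Zk60.BW

open Pool.Agent.W745.RW (lap dx dy)

/-- the frequencies -/
structure Dat (a b : ℝ) (n : ℕ) where
  m : Fin (n + 1) → ℤ
  l : Fin (n + 1) → ℤ
  N : ℕ
  big : 2 ^ (n + 1) ≤ N
  ell : ∀ i, (2 * π * m i / a) ^ 2 + (2 * π * l i / b) ^ 2 = (π * N / a) ^ 2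
  dirX : ∀ i : Fin (n + 1), |2 * (m i : ℝ) / N - cos (π * i / (n + 1 : ℕ))| ≤ 1 / (n + 1 : ℕ)
  dirY : ∀ i : Fin (n + 1),
    |2 * (l i : ℝ) * a / (b * N) - sin (π * i / (n + 1 : ℕ))| ≤ 1 / (n + 1 : ℕ)
  im : ∀ g : Fin (n + 1) → ℤ, (∀ i, |g i| ≤ (2 * (n + 1) : ℕ)) → ∑ i, g i * m i = 0 → ∀ i, g i = 0
  il : ∀ g : Fin (n + 1) → ℤ, (∀ i, |g i| ≤ (2 * (n + 1) : ℕ)) → ∑ i, g i * l i = 0 → ∀ i, g i = 0

theorem exists_dat (a b : ℝ) (ha : 0 < a) (hb : 0 < b) (p q : ℕ) (hp : 0 < p) (hq : 0 < q)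
    (h : (q : ℝ) * a ^ 2 = p * b ^ 2) (n : ℕ) : Nonempty (Dat a b n) := by
  have hn : (0 : ℝ) < ((n + 1 : ℕ) : ℝ) := by positivity
  set θ : ℕ → ℝ := fun i => π * ((min i n : ℕ) : ℝ) / ((n + 1 : ℕ) : ℝ) with hθ
  have h0 : ∀ i, 0 ≤ θ i := fun i => by positivity
  have h1 : ∀ i, θ i < π := by
    intro i
    simp only [hθ]
    rw [div_lt_iff₀ hn]
    have : ((min i n : ℕ) : ℝ) < ((n + 1 : ℕ) : ℝ) := by
      exact_mod_cast (show min i n < n + 1 by omega)
    exact mul_lt_mul_of_pos_left this pi_pos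
  obtain ⟨m, l, N, hN, hm2, hl2, hell, hX, hY, hm, hl⟩ := main_nt (p * q) q
    (Nat.mul_pos hp hq) hq (n + 1) (2 * (n + 1)) θ h0 h1 (1 / ((n + 1 : ℕ) : ℝ)) (by positivity)
  choose m' hm' using hm2
  choose l' hl' using hl2
  have hqr : (0 : ℝ) < q := by exact_mod_cast hq
  have hpr : (0 : ℝ) < p := by exact_mod_cast hp
  have hNpos : 0 < N := lt_of_lt_of_le (by positivity) hN
  have hNr : (0 : ℝ) < N := by exact_mod_cast hNpos
  have hθi : ∀ i : Fin (n + 1), θ i = π * i / (n + 1 : ℕ) := by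
    intro i
    simp only [hθ]
    have : min (i : ℕ) n = i := by
      have := i.isLt
      omega
    rw [this]
  have hroot : √((p * q : ℕ) : ℝ) = q * a / b := by
    have hb2 : b ^ 2 ≠ 0 := by positivity
    rw [show ((p * q : ℕ) : ℝ) = (q * a / b) ^ 2 by
      rw [div_pow, mul_pow, eq_div_iff hb2]
      push_cast
      linear_combination -(q : ℝ) * h, Real.sqrt_sq (by positivity)]
  refine ⟨⟨m', l', N, hN, fun i => ?_, fun i => ?_, fun i => ?_, fun g hg hs => ?_,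
    fun g hg hs => ?_⟩⟩
  · have h3 : ((q : ℝ)) ^ 2 * (2 * m' i) ^ 2 + (p * q) * (2 * l' i) ^ 2 = q ^ 2 * N ^ 2 := by
      have := hell i
      rw [hm' i, hl' i] at this
      exact_mod_cast this
    have h4 : (p : ℝ) = q * a ^ 2 / b ^ 2 := by
      rw [eq_div_iff (by positivity)]
      linarith
    rw [h4] at h3
    have h5 : (2 * (m' i : ℝ)) ^ 2 + a ^ 2 / b ^ 2 * (2 * l' i) ^ 2 = N ^ 2 := by
      have hq2 : (q : ℝ) ^ 2 ≠ 0 := by positivity
      refine mul_left_cancel₀ hq2 ?_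
      rw [← h3]
      field_simp
    rw [div_pow, div_pow, div_pow, mul_pow π, ← h5]
    field_simp
  · have := hX i
    rw [hm' i, hθi i] at this
    push_cast at this ⊢
    exact this.le
  · have h6 := hY i
    rw [hl' i, hθi i, hroot] at h6
    have e : (q : ℝ) * a / b * ((2 * l' i : ℤ) : ℝ) / (q * N) = 2 * (l' i : ℝ) * a / (b * N) := by
      push_cast
      field_simp
    rw [e] at h6
    exact h6.le
  · refine hm g hg ?_
    simp only [hm']
    have : ∑ i, g i * (2 * m' i) = 2 * ∑ i, g i * m' i := by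
      rw [Finset.mul_sum]
      exact Finset.sum_congr rfl fun i _ => by ring
    rw [this, hs, mul_zero]
  · refine hl g hg ?_
    simp only [hl']
    have : ∑ i, g i * (2 * l' i) = 2 * ∑ i, g i * l' i := by
      rw [Finset.mul_sum]
      exact Finset.sum_congr rfl fun i _ => by ring
    rw [this, hs, mul_zero]

variable {a b : ℝ} {n : ℕ}

/-- the eigenvalue -/
noncomputable def Dat.lam (d : Dat a b n) : ℝ := (π * d.N / a) ^ 2

/-- the eigenfunction; `φ = 0` (Dirichlet) or `φ = π / 2` (Neumann) -/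
noncomputable def Dat.u (d : Dat a b n) (φ : ℝ) (z : ℂ) : ℝ :=
  (2 / √((n + 1 : ℕ) : ℝ)) *
    ∑ i, sin (2 * π * d.m i / a * z.re + φ) * sin (2 * π * d.l i / b * z.im + φ)

theorem Dat.N_pos (d : Dat a b n) : (0 : ℝ) < d.N := by
  have h1 : 0 < 2 ^ (n + 1) := by positivity
  exact_mod_cast h1.trans_le d.big

theorem Dat.sqrt_lam (d : Dat a b n) (ha : 0 < a) : √(d.lam) = π * d.N / a := by
  unfold Dat.lam
  have := d.N_pos
  rw [Real.sqrt_sq (by positivity)]

theorem Dat.lam_pos (d : Dat a b n) (ha : 0 < a) : 0 < d.lam := by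
  unfold Dat.lam
  have := d.N_pos
  positivity

/-- the local combination is the sum of the model -/
theorem Dat.comb (d : Dat a b n) (ha : 0 < a) (hb : 0 < b) (φ : ℝ) {k : ℕ} (w : Fin k → ℂ)
    (t : Fin k → ℝ) (z : ℂ) :
    ∑ j, t j * d.u φ (z + w j / ((√(d.lam) : ℝ) : ℂ)) =
      SM w t φ (fun i => 2 * (d.m i : ℝ) / d.N) (fun i => 2 * (d.l i : ℝ) * a / (b * d.N))
        (Ph a b d.m d.l z) := by
  have hN := d.N_pos
  have hre : ∀ v : ℂ, (z + v / ((√(d.lam) : ℝ) : ℂ)).re = z.re + v.re * a / (π * d.N) := by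
    intro v
    rw [Complex.add_re, Complex.div_ofReal_re, d.sqrt_lam ha]
    have := pi_pos
    field_simp
  have him : ∀ v : ℂ, (z + v / ((√(d.lam) : ℝ) : ℂ)).im = z.im + v.im * a / (π * d.N) := by
    intro v
    rw [Complex.add_im, Complex.div_ofReal_im, d.sqrt_lam ha]
    have := pi_pos
    field_simp
  unfold SM Dat.u FF Ph
  simp only [hre, him]
  rw [Finset.sum_comm, Finset.mul_sum]
  refine Finset.sum_congr rfl fun j _ => ?_
  rw [Finset.mul_sum, Finset.mul_sum, Finset.mul_sum]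
  refine Finset.sum_congr rfl fun i _ => ?_
  have e1 : 2 * π * d.m i / a * (z.re + (w j).re * a / (π * d.N)) + φ =
      2 * π * d.m i * z.re / a + (2 * (d.m i : ℝ) / d.N * (w j).re + φ) := by
    have := pi_pos
    field_simp
    ring
  have e2 : 2 * π * d.l i / b * (z.im + (w j).im * a / (π * d.N)) + φ =
      2 * π * d.l i * z.im / b + (2 * (d.l i : ℝ) * a / (b * d.N) * (w j).im + φ) := by
    have := pi_pos
    field_simp
    ring
  rw [e1, e2]
  ring

/-! ### the differential equation -/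

theorem hasFDeriv_prod {f g f' g' : ℝ → ℝ} (hf : ∀ x, HasDerivAt f (f' x) x)
    (hg : ∀ x, HasDerivAt g (g' x) x) (z : ℂ) :
    HasFDerivAt (fun z : ℂ => f z.re * g z.im)
      (f z.re • (g' z.im • Complex.imCLM) + g z.im • (f' z.re • Complex.reCLM)) z := by
  have h1 : HasFDerivAt (fun z : ℂ => f z.re) (f' z.re • Complex.reCLM) z :=
    (hf z.re).comp_hasFDerivAt z Complex.reCLM.hasFDerivAt
  have h2 : HasFDerivAt (fun z : ℂ => g z.im) (g' z.im • Complex.imCLM) z :=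
    (hg z.im).comp_hasFDerivAt z Complex.imCLM.hasFDerivAt
  exact h1.mul h2

theorem dx_prod {f g f' g' : ℝ → ℝ} (hf : ∀ x, HasDerivAt f (f' x) x)
    (hg : ∀ x, HasDerivAt g (g' x) x) :
    dx (fun z : ℂ => f z.re * g z.im) = fun z => f' z.re * g z.im := by
  funext z
  unfold dx
  rw [(hasFDeriv_prod hf hg z).fderiv]
  simp
  ring

theorem dy_prod {f g f' g' : ℝ → ℝ} (hf : ∀ x, HasDerivAt f (f' x) x)
    (hg : ∀ x, HasDerivAt g (g' x) x) :
    dy (fun z : ℂ => f z.re * g z.im) = fun z => f z.re * g' z.im := by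
  funext z
  unfold dy
  rw [(hasFDeriv_prod hf hg z).fderiv]
  simp

theorem hasDerivAt_sin_lin (A φ x : ℝ) : HasDerivAt (fun x => sin (A * x + φ)) (A * cos (A * x + φ)) x := by
  have h2 : HasDerivAt (fun x : ℝ => A * x + φ) (A * 1) x :=
    ((hasDerivAt_id x).const_mul A).add_const φ
  refine h2.sin.congr_deriv ?_
  ring

theorem hasDerivAt_cos_lin (A φ x : ℝ) :
    HasDerivAt (fun x => A * cos (A * x + φ)) (-(A ^ 2) * sin (A * x + φ)) x := by
  have h2 : HasDerivAt (fun x : ℝ => A * x + φ) (A * 1) x :=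
    ((hasDerivAt_id x).const_mul A).add_const φ
  refine (h2.cos.const_mul A).congr_deriv ?_
  ring

theorem contDiff_mode (A B φ : ℝ) :
    ContDiff ℝ ∞ (fun z : ℂ => sin (A * z.re + φ) * sin (B * z.im + φ)) := by
  have h1 : ContDiff ℝ ∞ (fun z : ℂ => z.re) := Complex.reCLM.contDiff
  have h2 : ContDiff ℝ ∞ (fun z : ℂ => z.im) := Complex.imCLM.contDiff
  exact (Real.contDiff_sin.comp ((contDiff_const.mul h1).add contDiff_const)).mul
    (Real.contDiff_sin.comp ((contDiff_const.mul h2).add contDiff_const))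

theorem contDiff_u (d : Dat a b n) (φ : ℝ) : ContDiff ℝ ∞ (d.u φ) := by
  unfold Dat.u
  exact contDiff_const.mul (ContDiff.sum fun i _ => contDiff_mode _ _ φ)

theorem dx_mode (A B φ : ℝ) : dx (fun z : ℂ => sin (A * z.re + φ) * sin (B * z.im + φ)) =
    fun z => A * cos (A * z.re + φ) * sin (B * z.im + φ) :=
  dx_prod (f := fun x => sin (A * x + φ)) (g := fun x => sin (B * x + φ))
    (hasDerivAt_sin_lin A φ) (hasDerivAt_sin_lin B φ)

theorem dy_mode (A B φ : ℝ) : dy (fun z : ℂ => sin (A * z.re + φ) * sin (B * z.im + φ)) =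
    fun z => sin (A * z.re + φ) * (B * cos (B * z.im + φ)) :=
  dy_prod (f := fun x => sin (A * x + φ)) (g := fun x => sin (B * x + φ))
    (hasDerivAt_sin_lin A φ) (hasDerivAt_sin_lin B φ)

theorem dxx_mode (A B φ : ℝ) :
    dx (dx (fun z : ℂ => sin (A * z.re + φ) * sin (B * z.im + φ))) =
    fun z => -(A ^ 2) * sin (A * z.re + φ) * sin (B * z.im + φ) := by
  rw [dx_mode]
  exact dx_prod (f := fun x => A * cos (A * x + φ)) (g := fun x => sin (B * x + φ))
    (hasDerivAt_cos_lin A φ) (hasDerivAt_sin_lin B φ)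

theorem dyy_mode (A B φ : ℝ) :
    dy (dy (fun z : ℂ => sin (A * z.re + φ) * sin (B * z.im + φ))) =
    fun z => sin (A * z.re + φ) * (-(B ^ 2) * sin (B * z.im + φ)) := by
  rw [dy_mode]
  exact dy_prod (f := fun x => sin (A * x + φ)) (g := fun x => B * cos (B * x + φ))
    (hasDerivAt_sin_lin A φ) (hasDerivAt_cos_lin B φ)

theorem dx_sum {ι : Type*} (s : Finset ι) (c : ℝ) (f : ι → ℂ → ℝ)
    (hf : ∀ i, ContDiff ℝ ∞ (f i)) :
    dx (fun z => c * ∑ i ∈ s, f i z) = fun z => c * ∑ i ∈ s, dx (f i) z := by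
  funext z
  unfold dx
  have hd : ∀ i ∈ s, DifferentiableAt ℝ (f i) z := fun i _ =>
    ((hf i).differentiable (by simp)).differentiableAt
  rw [fderiv_const_mul (DifferentiableAt.fun_sum hd), fderiv_fun_sum hd]
  simp

theorem dy_sum {ι : Type*} (s : Finset ι) (c : ℝ) (f : ι → ℂ → ℝ)
    (hf : ∀ i, ContDiff ℝ ∞ (f i)) :
    dy (fun z => c * ∑ i ∈ s, f i z) = fun z => c * ∑ i ∈ s, dy (f i) z := by
  funext z
  unfold dy
  have hd : ∀ i ∈ s, DifferentiableAt ℝ (f i) z := fun i _ =>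
    ((hf i).differentiable (by simp)).differentiableAt
  rw [fderiv_const_mul (DifferentiableAt.fun_sum hd), fderiv_fun_sum hd]
  simp

theorem contDiff_dx_mode (A B φ : ℝ) :
    ContDiff ℝ ∞ (dx (fun z : ℂ => sin (A * z.re + φ) * sin (B * z.im + φ))) := by
  rw [dx_mode]
  have h1 : ContDiff ℝ ∞ (fun z : ℂ => z.re) := Complex.reCLM.contDiff
  have h2 : ContDiff ℝ ∞ (fun z : ℂ => z.im) := Complex.imCLM.contDiff
  exact (contDiff_const.mul (Real.contDiff_cos.comp ((contDiff_const.mul h1).add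
    contDiff_const))).mul (Real.contDiff_sin.comp ((contDiff_const.mul h2).add contDiff_const))

theorem contDiff_dy_mode (A B φ : ℝ) :
    ContDiff ℝ ∞ (dy (fun z : ℂ => sin (A * z.re + φ) * sin (B * z.im + φ))) := by
  rw [dy_mode]
  have h1 : ContDiff ℝ ∞ (fun z : ℂ => z.re) := Complex.reCLM.contDiff
  have h2 : ContDiff ℝ ∞ (fun z : ℂ => z.im) := Complex.imCLM.contDiff
  exact (Real.contDiff_sin.comp ((contDiff_const.mul h1).add contDiff_const)).mul
    (contDiff_const.mul (Real.contDiff_cos.comp ((contDiff_const.mul h2).add contDiff_const)))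

theorem Dat.helmholtz (d : Dat a b n) (φ : ℝ) (z : ℂ) :
    lap (d.u φ) z + d.lam * d.u φ z = 0 := by
  have e : d.u φ = fun z => (2 / √((n + 1 : ℕ) : ℝ)) * ∑ i ∈ Finset.univ,
      (fun z : ℂ => sin (2 * π * d.m i / a * z.re + φ) * sin (2 * π * d.l i / b * z.im + φ)) z := rfl
  have h1 : dx (d.u φ) = fun z => (2 / √((n + 1 : ℕ) : ℝ)) * ∑ i ∈ Finset.univ,
      dx (fun z : ℂ => sin (2 * π * d.m i / a * z.re + φ) *
        sin (2 * π * d.l i / b * z.im + φ)) z := by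
    rw [e, dx_sum _ _ _ fun i => contDiff_mode _ _ φ]
  have h2 : dy (d.u φ) = fun z => (2 / √((n + 1 : ℕ) : ℝ)) * ∑ i ∈ Finset.univ,
      dy (fun z : ℂ => sin (2 * π * d.m i / a * z.re + φ) *
        sin (2 * π * d.l i / b * z.im + φ)) z := by
    rw [e, dy_sum _ _ _ fun i => contDiff_mode _ _ φ]
  unfold lap
  rw [h1, h2, dx_sum _ _ _ fun i => contDiff_dx_mode _ _ φ,
    dy_sum _ _ _ fun i => contDiff_dy_mode _ _ φ]
  simp only [dxx_mode, dyy_mode]
  unfold Dat.u Dat.lam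
  rw [← mul_add, ← Finset.sum_add_distrib, mul_left_comm, ← mul_add, Finset.mul_sum,
    ← Finset.sum_add_distrib]
  rw [mul_eq_zero]
  right
  refine Finset.sum_eq_zero fun i _ => ?_
  rw [← d.ell i]
  ring

theorem sin_even_pi (m j : ℤ) (a : ℝ) (ha : 0 < a) : sin (2 * π * m / a * (j * a) + 0) = 0 := by
  have : 2 * π * m / a * (j * a) + 0 = ((2 * m * j : ℤ) : ℝ) * π := by
    push_cast
    field_simp
    ring
  rw [this, Real.sin_int_mul_pi]

theorem cos_even_pi (m j : ℤ) (a : ℝ) (ha : 0 < a) :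
    cos (2 * π * m / a * (j * a) + π / 2) = 0 := by
  rw [Real.cos_add_pi_div_two]
  have := sin_even_pi m j a ha
  rw [add_zero] at this
  rw [this, neg_zero]

theorem Dat.dirichlet (d : Dat a b n) (ha : 0 < a) (hb : 0 < b) (z : ℂ) (hz : z ∈ Grid a b) :
    d.u 0 z = 0 := by
  unfold Dat.u
  rw [mul_eq_zero]
  right
  refine Finset.sum_eq_zero fun i _ => ?_
  rcases hz with ⟨j, hj⟩ | ⟨j, hj⟩
  · rw [hj, sin_even_pi _ _ _ ha, zero_mul]
  · rw [hj, sin_even_pi _ _ _ hb, mul_zero]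

theorem Dat.neumann (d : Dat a b n) (ha : 0 < a) (hb : 0 < b) (z : ℂ) :
    ((∃ j : ℤ, z.re = j * a) → dx (d.u (π / 2)) z = 0) ∧
      ((∃ j : ℤ, z.im = j * b) → dy (d.u (π / 2)) z = 0) := by
  have e : d.u (π / 2) = fun z => (2 / √((n + 1 : ℕ) : ℝ)) * ∑ i ∈ Finset.univ,
      (fun z : ℂ => sin (2 * π * d.m i / a * z.re + π / 2) *
        sin (2 * π * d.l i / b * z.im + π / 2)) z := rfl
  constructor
  · rintro ⟨j, hj⟩
    rw [e, dx_sum _ _ _ fun i => contDiff_mode _ _ _]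
    simp only [dx_mode]
    rw [mul_eq_zero]
    right
    refine Finset.sum_eq_zero fun i _ => ?_
    rw [hj, cos_even_pi _ _ _ ha]
    ring
  · rintro ⟨j, hj⟩
    rw [e, dy_sum _ _ _ fun i => contDiff_mode _ _ _]
    simp only [dy_mode]
    rw [mul_eq_zero]
    right
    refine Finset.sum_eq_zero fun i _ => ?_
    rw [hj, cos_even_pi _ _ _ hb]
    ring

end Pool.Agent.Zk60.BW
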